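import Pool.Agent.Lib.MP_76a7f5_an.Final
import Pool.Agent.Lib.MP_76a7f5_an.Exist

namespace Pool.Agent.Results.MP_76a7f5_an.FortyOneNodes

open Pool.Agent.Lib.MP_76a7f5_an

/-- For `n = 41` there is a global minimiser on the cube, and no global minimiser is symmetric,
not even up to the order of the coordinates. -/
theorem result :
    (∃ x ∈ cube 41, ∀ y ∈ cube 41, F 41 x ≤ F 41 y) ∧
      ∀ x ∈ cube 41, (∀ y ∈ cube 41, F 41 x ≤ F 41 y) →
        ¬ IsSymmetric 41 x ∧ ¬ ∃ σ : Equiv.Perm (Fin 41), ∀ i, x (σ i) = -x i := by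
  refine ⟨exists_min 41, ?_⟩
  intro x hx hmin
  have h := hmin _ xa_mem
  refine ⟨fun hs => ?_, fun hs => ?_⟩
  · exact absurd (asymmetric_better x hs) (not_lt.2 h)
  · obtain ⟨σ, hσ⟩ := hs
    exact absurd (asymmetric_better_mirror x hx σ hσ) (not_lt.2 h)

end Pool.Agent.Results.MP_76a7f5_an.FortyOneNodes
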