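import Mathlib

namespace Pool.Agent.Results.MP_76a7f5_an.SmallN

open Finset

noncomputable section

/-- The function `g` of the problem. -/
def g (x : ℝ) : ℝ := if x = 0 then 2 / 3 else x⁻¹ * Real.log ((3 + x) / (3 - x))

/-- The energy `F_n`. -/
def F (n : ℕ) (x : Fin n → ℝ) : ℝ :=
  1 / (n : ℝ) * ∑ i, ∑ j, 1 / (3 - x i * x j) - ∑ i, g (x i)

/-- The cube `[-1,1]^n`. -/
def cube (n : ℕ) : Set (Fin n → ℝ) := {x | ∀ i, -1 ≤ x i ∧ x i ≤ 1}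

/-- `x` is `(a_1,…,a_m,-a_1,…,-a_m)` (n even) or `(a_1,…,a_m,0,-a_1,…,-a_m)` (n odd),
with all `a_j` in `[-1,1]`, where `m = n / 2`. -/
def IsSymmetric (n : ℕ) (x : Fin n → ℝ) : Prop :=
  ∃ a : ℕ → ℝ, (∀ j, -1 ≤ a j ∧ a j ≤ 1) ∧
    ∀ i : Fin n, x i = if (i : ℕ) < n / 2 then a i
      else if n - n / 2 ≤ (i : ℕ) then - a (i - (n - n / 2)) else 0

/-- power sums -/
def ps {n : ℕ} (x : Fin n → ℝ) (k : ℕ) : ℝ := ∑ i, x i ^ k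

lemma hs_of {f g : ℕ → ℝ} {a b : ℝ} (h : HasSum f a) (hf : ∀ k, g k = f k) (hab : b = a) :
    HasSum g b := by
  rw [hab]
  have : g = f := funext hf
  rw [this]; exact h

lemma g_hasSum (x : ℝ) (hx : |x| ≤ 1) :
    HasSum (fun j : ℕ => (1 / 3 : ℝ) ^ (2 * j + 1) * (2 * x ^ (2 * j) / (2 * j + 1))) (g x) := by
  by_cases h0 : x = 0
  · subst h0
    have h1 : g 0 = (1 / 3 : ℝ) ^ (2 * 0 + 1) * (2 * (0:ℝ) ^ (2 * 0) / (2 * ((0:ℕ):ℝ) + 1)) := by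
      simp [g]; norm_num
    rw [h1]
    refine hasSum_single 0 ?_
    intro j hj
    have : (0:ℝ) ^ (2 * j) = 0 := by
      apply zero_pow; omega
    rw [this]; simp
  · have hy : |x / 3| < 1 := by
      rw [abs_div, abs_of_pos (by norm_num : (0:ℝ) < 3)]; linarith
    have h := (Real.hasSum_log_sub_log_of_abs_lt_one hy).mul_left x⁻¹
    have hx' := abs_le.mp hx
    have h3 : g x = x⁻¹ * (Real.log (1 + x / 3) - Real.log (1 - x / 3)) := by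
      unfold g
      rw [if_neg h0]
      congr 1
      rw [← Real.log_div (by linarith) (by linarith)]
      congr 1
      have e1 : (3 - x) ≠ 0 := by linarith
      have e2 : (1 - x / 3) ≠ 0 := by linarith
      field_simp
    rw [h3]
    refine hs_of h (fun j => ?_) rfl
    have e1 : ((2:ℝ) * j + 1) ≠ 0 := by positivity
    have e2 : (1 / 3 : ℝ) ^ (2 * j + 1) = 1 / 3 ^ (2 * j + 1) := by rw [one_div_pow]
    have e3 : (x / 3) ^ (2 * j + 1) = x ^ (2 * j) * x / 3 ^ (2 * j + 1) := by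
      rw [div_pow, pow_succ x]
    rw [e2, e3]
    field_simp

lemma ker_even (t : ℝ) (ht : |t| ≤ 1) :
    HasSum (fun j : ℕ => (1 / 3 : ℝ) ^ (2 * j + 1) * t ^ (2 * j)) (3 / (9 - t ^ 2)) := by
  have h1 : t ^ 2 ≤ 1 := by
    have := (sq_le_one_iff_abs_le_one t).mpr ht; linarith
  have h2 : |t ^ 2 / 9| < 1 := by
    rw [abs_of_nonneg (by positivity)]; linarith
  have h := (hasSum_geometric_of_abs_lt_one h2).mul_left (1 / 3)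
  refine hs_of h (fun j => ?_) ?_
  · have e2 : (1 / 3 : ℝ) ^ (2 * j + 1) = (1 / 9) ^ j * (1 / 3) := by
      rw [pow_succ, pow_mul]; norm_num
    have e3 : (t ^ 2 / 9) ^ j = t ^ (2 * j) * (1 / 9) ^ j := by
      rw [pow_mul, ← mul_pow]; congr 1; ring
    rw [e2, e3]; ring
  · have e1 : (9 - t ^ 2) ≠ 0 := by linarith
    have e2 : (1 - t ^ 2 / 9) ≠ 0 := by linarith
    field_simp
    norm_num

lemma ker_odd (t : ℝ) (ht : |t| ≤ 1) :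
    HasSum (fun j : ℕ => (1 / 3 : ℝ) ^ (2 * j + 2) * t ^ (2 * j + 1)) (t / (9 - t ^ 2)) := by
  have h := (ker_even t ht).mul_left (t / 3)
  refine hs_of h (fun j => ?_) ?_
  · ring
  · ring

lemma ker_sum (t : ℝ) (ht : |t| ≤ 1) : 1 / (3 - t) = 3 / (9 - t ^ 2) + t / (9 - t ^ 2) := by
  have h := abs_le.mp ht
  have h1 : t ^ 2 ≤ 1 := by nlinarith
  have e1 : (3 - t) ≠ 0 := by linarith
  have e2 : (9 - t ^ 2) ≠ 0 := by linarith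
  field_simp
  ring

def Ev {n : ℕ} (x : Fin n → ℝ) : ℝ :=
  ∑ i, ∑ j, 3 / (9 - (x i * x j) ^ 2) - n * ∑ i, g (x i)

def Od {n : ℕ} (x : Fin n → ℝ) : ℝ :=
  ∑ i, ∑ j, (x i * x j) / (9 - (x i * x j) ^ 2)

lemma abs_mul_le {n : ℕ} {x : Fin n → ℝ} (hx : x ∈ cube n) (i j : Fin n) : |x i * x j| ≤ 1 := by
  rw [abs_mul]
  have h1 : |x i| ≤ 1 := abs_le.mpr (hx i)
  have h2 : |x j| ≤ 1 := abs_le.mpr (hx j)
  calc |x i| * |x j| ≤ 1 * 1 := by gcongr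
    _ = 1 := by norm_num

lemma F_eq {n : ℕ} (hn : 0 < n) (x : Fin n → ℝ) (hx : x ∈ cube n) : (n : ℝ) * F n x = Ev x + Od x := by
  have hn' : (n : ℝ) ≠ 0 := by positivity
  unfold F Ev Od
  rw [mul_sub, ← mul_assoc, mul_one_div_cancel hn', one_mul]
  have : ∑ i, ∑ j, 1 / (3 - x i * x j) = ∑ i, ∑ j, 3 / (9 - (x i * x j) ^ 2) +
      ∑ i, ∑ j, (x i * x j) / (9 - (x i * x j) ^ 2) := by
    rw [← Finset.sum_add_distrib]
    refine Finset.sum_congr rfl fun i _ => ?_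
    rw [← Finset.sum_add_distrib]
    refine Finset.sum_congr rfl fun j _ => ?_
    exact ker_sum _ (abs_mul_le hx i j)
  rw [this]; ring

lemma ps_sq {n : ℕ} (x : Fin n → ℝ) (k : ℕ) : (ps x k) ^ 2 = ∑ i, ∑ j, (x i * x j) ^ k := by
  unfold ps
  rw [sq, Finset.sum_mul_sum]
  simp only [mul_pow]

lemma Od_hasSum {n : ℕ} (x : Fin n → ℝ) (hx : x ∈ cube n) :
    HasSum (fun j : ℕ => (1 / 3 : ℝ) ^ (2 * j + 2) * (ps x (2 * j + 1)) ^ 2) (Od x) := by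
  have : HasSum (fun k : ℕ => ∑ i, ∑ j, (1 / 3 : ℝ) ^ (2 * k + 2) * (x i * x j) ^ (2 * k + 1)) (Od x) := by
    unfold Od
    refine hasSum_sum fun i _ => hasSum_sum fun j _ => ?_
    exact ker_odd _ (abs_mul_le hx i j)
  refine hs_of this (fun k => ?_) rfl
  rw [ps_sq, Finset.mul_sum]
  refine Finset.sum_congr rfl fun i _ => ?_
  rw [Finset.mul_sum]

lemma Ev_hasSum {n : ℕ} (x : Fin n → ℝ) (hx : x ∈ cube n) :
    HasSum (fun j : ℕ => (1 / 3 : ℝ) ^ (2 * j + 1) *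
      ((ps x (2 * j)) ^ 2 - 2 * n / (2 * j + 1) * ps x (2 * j))) (Ev x) := by
  have h1 : HasSum (fun k : ℕ => ∑ i, ∑ j, (1 / 3 : ℝ) ^ (2 * k + 1) * (x i * x j) ^ (2 * k))
      (∑ i, ∑ j, 3 / (9 - (x i * x j) ^ 2)) := by
    refine hasSum_sum fun i _ => hasSum_sum fun j _ => ?_
    exact ker_even _ (abs_mul_le hx i j)
  have h2 : HasSum (fun k : ℕ => ∑ i, (1 / 3 : ℝ) ^ (2 * k + 1) * (2 * x i ^ (2 * k) / (2 * k + 1)))
      (∑ i, g (x i)) := by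
    refine hasSum_sum fun i _ => ?_
    exact g_hasSum _ (abs_le.mpr (hx i))
  have h3 := h1.sub (h2.mul_left (n : ℝ))
  unfold Ev
  refine hs_of h3 (fun k => ?_) rfl
  rw [ps_sq]
  unfold ps
  rw [mul_sub, Finset.mul_sum, Finset.mul_sum, Finset.mul_sum, Finset.mul_sum]
  congr 1
  · refine Finset.sum_congr rfl fun i _ => ?_
    rw [Finset.mul_sum]
  · refine Finset.sum_congr rfl fun i _ => ?_
    ring


/-! ### Comparison lemmas -/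

lemma Od_lower {n : ℕ} (x : Fin n → ℝ) (hx : x ∈ cube n) :
    (ps x 1) ^ 2 / 9 + (ps x 3) ^ 2 / 81 ≤ Od x := by
  have h := Od_hasSum x hx
  have h2 := sum_le_hasSum (Finset.range 2) (fun i _ => by positivity) h
  rw [Finset.sum_range_succ, Finset.sum_range_one] at h2
  norm_num at h2
  linarith

lemma Od_zero {n : ℕ} (x : Fin n → ℝ) (hx : x ∈ cube n) (h0 : ∀ j, ps x (2 * j + 1) = 0) :
    Od x = 0 := by
  have h := Od_hasSum x hx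
  have h1 : HasSum (fun j : ℕ => (1 / 3 : ℝ) ^ (2 * j + 2) * (ps x (2 * j + 1)) ^ 2) 0 :=
    hs_of hasSum_zero (fun k => by simp [h0 k]) rfl
  exact h.unique h1

/-- General comparison of the even parts: three explicit terms and a tail bound. -/
lemma Ev_lower {n : ℕ} (x s : Fin n → ℝ) (hx : x ∈ cube n) (hs : s ∈ cube n) (c : ℕ → ℝ) (C : ℝ)
    (hc : HasSum c C)
    (hD : ∀ j, -(c j) ≤ (1 / 3 : ℝ) ^ (2 * (j + 3) + 1) *
      ((ps x (2 * (j + 3))) ^ 2 - 2 * n / (2 * ((j + 3 : ℕ) : ℝ) + 1) * ps x (2 * (j + 3)) -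
       ((ps s (2 * (j + 3))) ^ 2 - 2 * n / (2 * ((j + 3 : ℕ) : ℝ) + 1) * ps s (2 * (j + 3))))) :
    ((ps x 2) ^ 2 - 2 * n / 3 * ps x 2 - ((ps s 2) ^ 2 - 2 * n / 3 * ps s 2)) / 27 +
    ((ps x 4) ^ 2 - 2 * n / 5 * ps x 4 - ((ps s 4) ^ 2 - 2 * n / 5 * ps s 4)) / 243 - C
      ≤ Ev x - Ev s := by
  have h := (Ev_hasSum x hx).sub (Ev_hasSum s hs)
  have h3 := (hasSum_nat_add_iff' 3).mpr h
  have h4 := hasSum_le (f := fun j => -(c j)) (fun j => ?_) hc.neg h3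
  · rw [Finset.sum_range_succ, Finset.sum_range_succ, Finset.sum_range_one] at h4
    have e0 : ps x (2 * 0) = ps s (2 * 0) := by simp [ps]
    rw [e0] at h4
    norm_num at h4
    linarith
  · have := hD j
    refine this.trans (le_of_eq ?_)
    ring

lemma taylor (u s : ℝ) (hu : |u| ≤ 1) (hs : |s| ≤ 1) (k : ℕ) :
    |u ^ (k + 1) - s ^ (k + 1) - (k + 1) * s ^ k * (u - s)| ≤ (k + 1) * k / 2 * (u - s) ^ 2 := by
  induction k with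
  | zero => simp
  | succ k ih =>
    have e : u ^ (k + 1 + 1) - s ^ (k + 1 + 1) - ((k + 1 : ℕ) + 1) * s ^ (k + 1) * (u - s) =
        u * (u ^ (k + 1) - s ^ (k + 1) - (k + 1) * s ^ k * (u - s)) + (k + 1) * s ^ k * (u - s) ^ 2 := by
      push_cast
      ring
    rw [e]
    have hs' : |s ^ k| ≤ 1 := by
      rw [abs_pow]; exact pow_le_one₀ (abs_nonneg _) hs
    calc |u * (u ^ (k + 1) - s ^ (k + 1) - (k + 1) * s ^ k * (u - s)) + (k + 1) * s ^ k * (u - s) ^ 2|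
        ≤ |u * (u ^ (k + 1) - s ^ (k + 1) - (k + 1) * s ^ k * (u - s))| + |(k + 1) * s ^ k * (u - s) ^ 2| :=
          abs_add_le _ _
      _ = |u| * |(u ^ (k + 1) - s ^ (k + 1) - (k + 1) * s ^ k * (u - s))| + (k + 1) * |s ^ k| * (u - s) ^ 2 := by
          rw [abs_mul, abs_mul, abs_mul, abs_of_nonneg (sq_nonneg (u - s)),
            abs_of_nonneg (by positivity : (0:ℝ) ≤ (k:ℝ) + 1)]
      _ ≤ 1 * ((k + 1) * k / 2 * (u - s) ^ 2) + (k + 1) * 1 * (u - s) ^ 2 := by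
          gcongr
      _ = ((k + 1 : ℕ) + 1) * ((k + 1 : ℕ)) / 2 * (u - s) ^ 2 := by push_cast; ring

/-- The pair bound: `0 ≤ u^k + v^k - 2 ((u+v)/2)^k ≤ k (k-1) ((u-v)/2)^2` for even `k`. -/
lemma pair_bound (u v : ℝ) (hu : |u| ≤ 1) (hv : |v| ≤ 1) (j : ℕ) :
    0 ≤ u ^ (2 * j) + v ^ (2 * j) - 2 * ((u + v) / 2) ^ (2 * j) ∧
    u ^ (2 * (j + 1)) + v ^ (2 * (j + 1)) - 2 * ((u + v) / 2) ^ (2 * (j + 1)) ≤
      (2 * (j + 1)) * (2 * (j + 1) - 1) * ((u - v) / 2) ^ 2 := by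
  constructor
  · have h := (Even.convexOn_pow (𝕜 := ℝ) (n := 2 * j) (by simp)).2 (Set.mem_univ u) (Set.mem_univ v)
      (by norm_num : (0:ℝ) ≤ 1 / 2) (by norm_num : (0:ℝ) ≤ 1 / 2) (by norm_num)
    simp only [smul_eq_mul] at h
    have e : (1 / 2 * u + 1 / 2 * v) = (u + v) / 2 := by ring
    rw [e] at h
    linarith
  · set s := (u + v) / 2 with hs
    have hs1 : |s| ≤ 1 := by
      rw [hs, abs_div, abs_of_pos (by norm_num : (0:ℝ) < 2)]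
      have := abs_add_le u v
      linarith
    have h1 := (abs_le.mp (taylor u s hu hs1 (2 * j + 1))).2
    have h2 := (abs_le.mp (taylor v s hv hs1 (2 * j + 1))).2
    have e1 : 2 * (j + 1) = 2 * j + 1 + 1 := by ring
    rw [e1]
    push_cast at h1 h2 ⊢
    have e2 : u - s = (u - v) / 2 := by rw [hs]; ring
    have e3 : v - s = -((u - v) / 2) := by rw [hs]; ring
    rw [e2] at h1
    rw [e3] at h2
    nlinarith [h1, h2]


lemma ps_even_nonneg {n : ℕ} (x : Fin n → ℝ) (j : ℕ) : 0 ≤ ps x (2 * j) :=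
  Finset.sum_nonneg fun i _ => by rw [pow_mul]; positivity

/-- Local comparison with a symmetric point. -/
lemma local_ineq {n : ℕ} (hn : 0 < n) (x s : Fin n → ℝ) (hx : x ∈ cube n) (hs : s ∈ cube n) (A : ℝ)
    (hA : 0 ≤ A) (hodd : ∀ j, ps s (2 * j + 1) = 0) (hD0 : ∀ j, ps s (2 * j) ≤ ps x (2 * j))
    (hDA : ∀ j, ps x (2 * (j + 3)) - ps s (2 * (j + 3)) ≤
      (2 * ((j : ℝ) + 3)) * (2 * ((j : ℝ) + 3) - 1) * A) :
    (ps x 1) ^ 2 / 9 + (ps x 3) ^ 2 / 81 +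
      (ps x 2 - ps s 2) * (ps x 2 + ps s 2 - 2 * n / 3) / 27 +
      (ps x 4 - ps s 4) * (ps x 4 + ps s 4 - 2 * n / 5) / 243 - 4 * n * A / 729 ≤
    n * F n x - n * F n s := by
  have hc : HasSum (fun j : ℕ => 2 * n * A * (5 / 2187) * (1 / 6 : ℝ) ^ j) (4 * n * A / 729) := by
    have h := (hasSum_geometric_of_lt_one (by norm_num : (0:ℝ) ≤ 1 / 6) (by norm_num)).mul_left
      (2 * n * A * (5 / 2187))
    refine hs_of h (fun _ => rfl) ?_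
    norm_num
    ring
  have hE := Ev_lower x s hx hs _ _ hc ?_
  · have hO := Od_lower x hx
    have hO2 := Od_zero s hs hodd
    rw [F_eq hn x hx, F_eq hn s hs, hO2]
    refine le_trans (le_of_eq ?_) (by linarith : (ps x 1) ^ 2 / 9 + (ps x 3) ^ 2 / 81 +
      (((ps x 2) ^ 2 - 2 * n / 3 * ps x 2 - ((ps s 2) ^ 2 - 2 * n / 3 * ps s 2)) / 27 +
    ((ps x 4) ^ 2 - 2 * n / 5 * ps x 4 - ((ps s 4) ^ 2 - 2 * n / 5 * ps s 4)) / 243 - 4 * n * A / 729)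
      ≤ Ev x + Od x - (Ev s + 0))
    ring
  · intro j
    have hD := sub_nonneg.mpr (hD0 (j + 3))
    have hp := ps_even_nonneg x (j + 3)
    have hq := ps_even_nonneg s (j + 3)
    have hU := hDA j
    set p := ps x (2 * (j + 3)) with hpdef
    set q := ps s (2 * (j + 3)) with hqdef
    have hnn : (0:ℝ) ≤ n := by positivity
    have hk : (0:ℝ) < 2 * ((j + 3 : ℕ) : ℝ) + 1 := by positivity
    have e1 : p ^ 2 - 2 * n / (2 * ((j + 3 : ℕ) : ℝ) + 1) * p -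
       (q ^ 2 - 2 * n / (2 * ((j + 3 : ℕ) : ℝ) + 1) * q) =
       (p - q) * (p + q) - (2 * n / (2 * ((j + 3 : ℕ) : ℝ) + 1)) * (p - q) := by ring
    have h1 : 0 ≤ (p - q) * (p + q) := mul_nonneg hD (by linarith)
    have h2 : (2 * n / (2 * ((j + 3 : ℕ) : ℝ) + 1)) * (p - q) ≤
        2 * n * (2 * (j : ℝ) + 5) * A := by
      calc (2 * n / (2 * ((j + 3 : ℕ) : ℝ) + 1)) * (p - q)
          ≤ (2 * n / (2 * ((j + 3 : ℕ) : ℝ) + 1)) * ((2 * ((j : ℝ) + 3)) * (2 * ((j : ℝ) + 3) - 1) * A) := by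
            gcongr
        _ = 2 * n * (2 * (j : ℝ) + 5) * A * ((2 * ((j : ℝ) + 3)) / (2 * ((j + 3 : ℕ) : ℝ) + 1)) := by
            push_cast
            ring
        _ ≤ 2 * n * (2 * (j : ℝ) + 5) * A * 1 := by
            apply mul_le_mul_of_nonneg_left _ (by positivity)
            rw [div_le_one hk]
            push_cast
            linarith
        _ = _ := by ring
    have h3 : (2 * (j : ℝ) + 5) ≤ 5 * (3 / 2) ^ j := by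
      have h := one_add_mul_le_pow (by norm_num : (-2:ℝ) ≤ 1 / 2) j
      have e : (1 + 1 / 2 : ℝ) = 3 / 2 := by norm_num
      rw [e] at h
      have hj : (0:ℝ) ≤ j := by positivity
      linarith
    have e2 : (1 / 3 : ℝ) ^ (2 * (j + 3) + 1) = (1 / 2187) * (1 / 9) ^ j := by
      rw [show 2 * (j + 3) + 1 = 2 * j + 7 by ring, pow_add, pow_mul]
      norm_num
      ring
    have e3 : (1 / 9 : ℝ) ^ j * (3 / 2) ^ j = (1 / 6) ^ j := by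
      rw [← mul_pow]; norm_num
    rw [e1, e2]
    have h4 : -(2 * n * (2 * (j : ℝ) + 5) * A) ≤ (p - q) * (p + q) -
        (2 * n / (2 * ((j + 3 : ℕ) : ℝ) + 1)) * (p - q) := by linarith
    have h9 : (0:ℝ) ≤ 1 / 2187 * (1 / 9) ^ j := by positivity
    calc -(2 * n * A * (5 / 2187) * (1 / 6 : ℝ) ^ j)
        = 1 / 2187 * (1 / 9) ^ j * -(2 * n * (5 * (3 / 2) ^ j) * A) := by rw [← e3]; ring
      _ ≤ 1 / 2187 * (1 / 9) ^ j * -(2 * n * (2 * (j : ℝ) + 5) * A) := by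
          apply mul_le_mul_of_nonneg_left _ h9
          apply neg_le_neg
          gcongr
      _ ≤ _ := mul_le_mul_of_nonneg_left h4 h9

/-- Global comparison with a good symmetric point. -/
lemma global_ineq {n : ℕ} (hn : 0 < n) (x s : Fin n → ℝ) (hx : x ∈ cube n) (hs : s ∈ cube n)
    (d3 d4 d5 : ℝ) (hodd : ∀ j, ps s (2 * j + 1) = 0)
    (h3 : |ps s 6 - n / 7| ≤ d3) (h4 : |ps s 8 - n / 9| ≤ d4)
    (h5 : ∀ j : ℕ, |ps s (2 * (j + 5)) - n / (2 * (j + 5) + 1)| ≤ d5) :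
    (ps x 1) ^ 2 / 9 + (ps x 3) ^ 2 / 81 +
      ((ps x 2 - n / 3) ^ 2 - (ps s 2 - n / 3) ^ 2) / 27 +
      ((ps x 4 - n / 5) ^ 2 - (ps s 4 - n / 5) ^ 2) / 243 -
      (d3 ^ 2 / 2187 + d4 ^ 2 / 19683 + d5 ^ 2 / 157464) ≤
    n * F n x - n * F n s := by
  set c : ℕ → ℝ := fun j => if j = 0 then d3 ^ 2 / 2187 else if j = 1 then d4 ^ 2 / 19683 else
    d5 ^ 2 * (1 / 3) ^ (2 * (j + 3) + 1) with hcdef
  have hc : HasSum c (d3 ^ 2 / 2187 + d4 ^ 2 / 19683 + d5 ^ 2 / 157464) := by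
    rw [← hasSum_nat_add_iff' 2]
    have h := (hasSum_geometric_of_lt_one (by norm_num : (0:ℝ) ≤ 1 / 9) (by norm_num)).mul_left
      (d5 ^ 2 * (1 / 3) ^ 11)
    refine hs_of h (fun k => ?_) ?_
    · simp only [hcdef]
      rw [if_neg (by omega), if_neg (by omega), show 2 * (k + 2 + 3) + 1 = 2 * k + 11 by ring,
        pow_add, pow_mul]
      norm_num
      ring
    · rw [Finset.sum_range_succ, Finset.sum_range_one]
      simp only [hcdef]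
      norm_num
      ring
  have hE := Ev_lower x s hx hs _ _ hc ?_
  · have hO := Od_lower x hx
    have hO2 := Od_zero s hs hodd
    rw [F_eq hn x hx, F_eq hn s hs, hO2]
    refine le_trans (le_of_eq ?_) (by linarith : (ps x 1) ^ 2 / 9 + (ps x 3) ^ 2 / 81 +
      (((ps x 2) ^ 2 - 2 * n / 3 * ps x 2 - ((ps s 2) ^ 2 - 2 * n / 3 * ps s 2)) / 27 +
    ((ps x 4) ^ 2 - 2 * n / 5 * ps x 4 - ((ps s 4) ^ 2 - 2 * n / 5 * ps s 4)) / 243 -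
      (d3 ^ 2 / 2187 + d4 ^ 2 / 19683 + d5 ^ 2 / 157464))
      ≤ Ev x + Od x - (Ev s + 0))
    ring
  · intro j
    have key : ∀ (w p q m δ : ℝ), 0 ≤ w → |q - m| ≤ δ → -(w * δ ^ 2) ≤
        w * (p ^ 2 - 2 * m * p - (q ^ 2 - 2 * m * q)) := by
      intro w p q m δ hw hq
      have h1 : (q - m) ^ 2 ≤ δ ^ 2 := by
        rw [← sq_abs]; exact pow_le_pow_left₀ (abs_nonneg _) hq 2
      have h2 : -(δ ^ 2) ≤ p ^ 2 - 2 * m * p - (q ^ 2 - 2 * m * q) := by nlinarith [sq_nonneg (p - m)]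
      calc -(w * δ ^ 2) = w * -(δ ^ 2) := by ring
        _ ≤ _ := mul_le_mul_of_nonneg_left h2 hw
    have e : (2 * (n:ℝ) / (2 * ((j + 3 : ℕ) : ℝ) + 1)) = 2 * (n / (2 * ((j + 3 : ℕ) : ℝ) + 1)) := by ring
    rw [e]
    have hw : (0:ℝ) ≤ (1 / 3 : ℝ) ^ (2 * (j + 3) + 1) := by positivity
    rcases Nat.lt_or_ge j 2 with hj | hj
    · interval_cases j
      · have := key ((1 / 3 : ℝ) ^ (2 * (0 + 3) + 1)) (ps x (2 * (0 + 3))) (ps s (2 * (0 + 3)))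
          (n / (2 * ((0 + 3 : ℕ) : ℝ) + 1)) d3 hw (by norm_num; exact h3)
        refine le_trans (le_of_eq ?_) this
        simp only [hcdef]
        norm_num
        ring
      · have := key ((1 / 3 : ℝ) ^ (2 * (1 + 3) + 1)) (ps x (2 * (1 + 3))) (ps s (2 * (1 + 3)))
          (n / (2 * ((1 + 3 : ℕ) : ℝ) + 1)) d4 hw (by norm_num; exact h4)
        refine le_trans (le_of_eq ?_) this
        simp only [hcdef]
        norm_num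
        ring
    · obtain ⟨i, rfl⟩ := Nat.exists_eq_add_of_le hj
      have := key ((1 / 3 : ℝ) ^ (2 * (2 + i + 3) + 1)) (ps x (2 * (2 + i + 3))) (ps s (2 * (2 + i + 3)))
          (n / (2 * ((2 + i + 3 : ℕ) : ℝ) + 1)) d5 hw (by
            have h := h5 i
            have e1 : 2 * (2 + i + 3) = 2 * (i + 5) := by ring
            rw [e1]
            push_cast
            have e2 : (2 * (2 + (i:ℝ) + 3) + 1) = 2 * (i + 5) + 1 := by ring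
            rw [e2]; exact h)
      refine le_trans (le_of_eq ?_) this
      simp only [hcdef]
      rw [if_neg (by omega), if_neg (by omega)]
      ring

/-! ### Existence of a sorted global minimiser -/

lemma g_cont : ContinuousOn g (Set.Icc (-1) 1) := by
  have h : ContinuousOn (fun x : ℝ => ∑' j : ℕ, (1 / 3 : ℝ) ^ (2 * j + 1) * (2 * x ^ (2 * j) / (2 * j + 1)))
      (Set.Icc (-1) 1) := by
    have hs : Summable (fun j : ℕ => 2 * (1 / 9 : ℝ) ^ j) :=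
      (summable_geometric_of_lt_one (by norm_num) (by norm_num)).mul_left 2
    refine continuousOn_tsum (fun j => ?_) hs (fun j x hx => ?_)
    · fun_prop
    · have hx1 : |x| ≤ 1 := abs_le.mpr hx
      have h0 : x ^ (2 * j) ≤ 1 := by
        rw [pow_mul]
        exact pow_le_one₀ (sq_nonneg x) ((sq_le_one_iff_abs_le_one x).mpr hx1)
      have h00 : 0 ≤ x ^ (2 * j) := by rw [pow_mul]; positivity
      rw [Real.norm_eq_abs, abs_of_nonneg (by positivity)]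
      have h1 : (1 / 3 : ℝ) ^ (2 * j + 1) ≤ (1 / 9) ^ j := by
        rw [pow_succ, pow_mul]
        norm_num
      have h2 : 2 * x ^ (2 * j) / (2 * (j:ℝ) + 1) ≤ 2 := by
        rw [div_le_iff₀ (by positivity)]
        have hj : (0:ℝ) ≤ j := by positivity
        nlinarith
      calc (1 / 3 : ℝ) ^ (2 * j + 1) * (2 * x ^ (2 * j) / (2 * j + 1)) ≤ (1 / 9) ^ j * 2 := by
            gcongr
        _ = _ := by ring
  refine h.congr fun x hx => ?_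
  exact (g_hasSum x (abs_le.mpr hx)).tsum_eq.symm

lemma F_cont (n : ℕ) : ContinuousOn (F n) (cube n) := by
  unfold F
  refine ContinuousOn.sub (ContinuousOn.mul continuousOn_const ?_) ?_
  · refine continuousOn_finsetSum _ fun i _ => continuousOn_finsetSum _ fun j _ => ?_
    refine ContinuousOn.div continuousOn_const (by fun_prop) ?_
    intro x hx
    have := (abs_le.mp (abs_mul_le hx i j)).2
    linarith
  · refine continuousOn_finsetSum _ fun i _ => ?_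
    refine g_cont.comp (by fun_prop) ?_
    intro x hx
    exact hx i

lemma cube_compact (n : ℕ) : IsCompact (cube n) := by
  have : cube n = Set.pi Set.univ (fun _ : Fin n => Set.Icc (-1 : ℝ) 1) := by
    ext x
    constructor
    · intro h i _; exact h i
    · intro h i; exact h i (Set.mem_univ i)
  rw [this]
  exact isCompact_univ_pi fun _ => isCompact_Icc

lemma F_perm {n : ℕ} (x : Fin n → ℝ) (σ : Equiv.Perm (Fin n)) : F n (x ∘ σ) = F n x := by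
  unfold F
  have h1 : ∑ i, g ((x ∘ σ) i) = ∑ i, g (x i) := Equiv.sum_comp σ (fun i => g (x i))
  have h2 : ∑ i, ∑ j, 1 / (3 - (x ∘ σ) i * (x ∘ σ) j) = ∑ i, ∑ j, 1 / (3 - x i * x j) := by
    rw [← Equiv.sum_comp σ (fun i => ∑ j, 1 / (3 - x i * x j))]
    refine Finset.sum_congr rfl fun i _ => ?_
    exact Equiv.sum_comp σ (fun j => 1 / (3 - x (σ i) * x j))
  rw [h1, h2]

lemma exists_min (n : ℕ) : ∃ x ∈ cube n, Monotone x ∧ ∀ y ∈ cube n, F n x ≤ F n y := by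
  have hne : (cube n).Nonempty := ⟨fun _ => 0, fun _ => by norm_num⟩
  obtain ⟨x, hx, hmin⟩ := (cube_compact n).exists_isMinOn hne (F_cont n)
  refine ⟨x ∘ Tuple.sort x, fun i => hx _, Tuple.monotone_sort x, fun y hy => ?_⟩
  rw [F_perm]
  exact hmin hy


/-! ### The case `n = 1` -/

lemma case_one : ∃ s ∈ cube 1, IsSymmetric 1 s ∧ ∀ y ∈ cube 1, F 1 s ≤ F 1 y := by
  refine ⟨fun _ => 0, fun _ => by norm_num, ⟨fun _ => 0, fun _ => by norm_num, fun i => ?_⟩, ?_⟩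
  · fin_cases i; simp
  · intro y hy
    set b := y 0 with hb
    have hyb : ∀ k, ps y k = b ^ k := fun k => by simp [ps, hb]
    have hs : ∀ k, 0 < k → ps (fun _ : Fin 1 => (0:ℝ)) k = 0 := fun k hk => by
      simp [ps]; omega
    have hb1 := hy 0
    rw [← hb] at hb1
    have hb2 : b ^ 2 ≤ 1 := by nlinarith
    have hbn : 0 ≤ b ^ 2 := sq_nonneg b
    have h := local_ineq (n := 1) (by norm_num) y (fun _ => 0) hy (fun _ => by norm_num) (b ^ 2 / 30)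
      (by positivity) (fun j => hs _ (by omega)) ?_ ?_
    · rw [hyb, hyb, hyb, hyb, hs 2 (by norm_num), hs 4 (by norm_num)] at h
      push_cast at h
      have e4 : b ^ 4 = b ^ 2 * b ^ 2 := by ring
      have e3 : (b ^ 3) ^ 2 = b ^ 2 * b ^ 2 * b ^ 2 := by ring
      have h3 : 0 ≤ (b ^ 3) ^ 2 := sq_nonneg _
      rw [e4] at h
      nlinarith [mul_nonneg hbn hbn, mul_nonneg (mul_nonneg hbn hbn) hbn, mul_nonneg (mul_nonneg (mul_nonneg hbn hbn) hbn) hbn,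
        mul_nonneg hbn (sub_nonneg.mpr hb2)]
    · intro j
      rcases Nat.eq_zero_or_pos j with rfl | hj
      · simp [ps]
      · rw [hs _ (by omega)]; exact ps_even_nonneg y j
    · intro j
      rw [hs _ (by omega), hyb, sub_zero]
      have h1 : b ^ (2 * (j + 3)) ≤ b ^ 2 := by
        rw [pow_mul, pow_succ (b ^ 2)]
        have : (b ^ 2) ^ (j + 2) ≤ 1 := pow_le_one₀ hbn hb2
        nlinarith
      have hj : (0:ℝ) ≤ j := by positivity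
      nlinarith [mul_nonneg hj hbn, mul_nonneg hj (mul_nonneg hj hbn)]

/-! ### The case `n = 2` -/

lemma g_even (x : ℝ) (hx : |x| ≤ 1) : g (-x) = g x := by
  have h := abs_le.mp hx
  unfold g
  by_cases h0 : x = 0
  · simp [h0]
  · rw [if_neg h0, if_neg (by simpa using h0)]
    rw [Real.log_div (by linarith) (by linarith), Real.log_div (by linarith) (by linarith)]
    have : (3 - -x) = 3 + x := by ring
    rw [this, inv_neg]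
    have : (3 + -x) = 3 - x := by ring
    rw [this]
    ring

lemma F2 (a b : ℝ) : F 2 ![a, b] = 1 / 2 * (1 / (3 - a * a) + 1 / (3 - b * b) + 2 / (3 - a * b))
    - g a - g b := by
  unfold F
  simp [Fin.sum_univ_two]
  rw [mul_comm b a]
  ring

lemma case_two : ∃ s ∈ cube 2, IsSymmetric 2 s ∧ ∀ y ∈ cube 2, F 2 s ≤ F 2 y := by
  obtain ⟨x, hx, -, hmin⟩ := exists_min 2
  have hxe : x = ![x 0, x 1] := by ext i; fin_cases i <;> rfl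
  set a := x 0 with ha
  set b := x 1 with hb
  have hmem : ∀ u v : ℝ, |u| ≤ 1 → |v| ≤ 1 → (![u, v] : Fin 2 → ℝ) ∈ cube 2 := by
    intro u v hu hv i
    fin_cases i
    · exact abs_le.mp hu
    · exact abs_le.mp hv
  have ha1 : |a| ≤ 1 := abs_le.mpr (hx 0)
  have hb1 : |b| ≤ 1 := abs_le.mpr (hx 1)
  have hna : |-a| ≤ 1 := by rwa [abs_neg]
  have hnb : |-b| ≤ 1 := by rwa [abs_neg]
  have haa : a ^ 2 ≤ 1 := (sq_le_one_iff_abs_le_one a).mpr ha1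
  have hbb : b ^ 2 ≤ 1 := (sq_le_one_iff_abs_le_one b).mpr hb1
  have hA := hmin _ (hmem a (-a) ha1 hna)
  have hB := hmin _ (hmem b (-b) hb1 hnb)
  have hC := hmin _ (hmem a (-b) ha1 hnb)
  rw [hxe] at hA hB hC
  rw [F2, F2, g_even a ha1] at hA
  rw [F2, F2, g_even b hb1] at hB
  rw [F2, F2, g_even b hb1] at hC
  refine ⟨![a, -a], hmem a (-a) ha1 hna, ⟨fun _ => a, fun _ => abs_le.mp ha1, fun i => ?_⟩, ?_⟩
  · fin_cases i <;> simp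
  · intro y hy
    refine le_trans ?_ (hmin y hy)
    rw [hxe, F2, F2, g_even a ha1]
    have hab : -1 ≤ a * b ∧ a * b ≤ 1 := by
      constructor <;> nlinarith [sq_nonneg (a + b), sq_nonneg (a - b)]
    -- the two mixed points
    have e1 : (3 - a * -b) = 3 + a * b := by ring
    have e2 : (3 - a * -a) = 3 + a ^ 2 := by ring
    have e3 : (3 - -a * -a) = 3 - a ^ 2 := by ring
    have e4 : (3 - b * -b) = 3 + b ^ 2 := by ring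
    have e5 : (3 - -b * -b) = 3 - b ^ 2 := by ring
    have e6 : (3 - a * a) = 3 - a ^ 2 := by ring
    have e7 : (3 - b * b) = 3 - b ^ 2 := by ring
    rw [e2, e3, e6, e7] at hA
    rw [e4, e5, e6, e7] at hB
    rw [e1, e5, e6, e7] at hC
    rw [e2, e3, e6, e7]
    have hp : 1 / (3 - a * b) ≤ 1 / (3 + a * b) := by
      have : 2 / (3 - a * b) = 2 * (1 / (3 - a * b)) := by ring
      rw [this] at hC
      have : 2 / (3 + a * b) = 2 * (1 / (3 + a * b)) := by ring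
      rw [this] at hC
      linarith
    have hneg : a * b ≤ 0 := by
      by_contra hcon
      push Not at hcon
      have : 1 / (3 + a * b) < 1 / (3 - a * b) :=
        one_div_lt_one_div_of_lt (by linarith) (by linarith)
      linarith
    -- main inequality
    have hmain : 1 / 2 * (1 / (3 + a ^ 2) + 1 / (3 + b ^ 2)) ≤ 1 / (3 - a * b) := by
      set p := a * b with hpdef
      have hS : p ^ 2 = a ^ 2 * b ^ 2 := by rw [hpdef]; ring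
      have hS2 : 0 ≤ a ^ 2 + b ^ 2 + 2 * p := by nlinarith [sq_nonneg (a + b)]
      have hd1 : 0 < 3 + a ^ 2 := by positivity
      have hd2 : 0 < 3 + b ^ 2 := by positivity
      have hd3 : 0 < 3 - p := by linarith
      rw [div_add_div _ _ hd1.ne' hd2.ne', one_div_mul_eq_div, div_div, div_le_div_iff₀ (by positivity) hd3]
      nlinarith [mul_nonneg hS2 (by linarith : 0 ≤ 3 + p)]
    have q1 : 2 / (3 + a ^ 2) = 2 * (1 / (3 + a ^ 2)) := by ring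
    have q2 : 2 / (3 + b ^ 2) = 2 * (1 / (3 + b ^ 2)) := by ring
    have q3 : 2 / (3 - a * b) = 2 * (1 / (3 - a * b)) := by ring
    rw [q1, q3] at hA
    rw [q2, q3] at hB
    rw [q1, q3]
    linarith


/-! ### The case `n = 3` -/

lemma ps3 (a b c : ℝ) (k : ℕ) : ps ![a, b, c] k = a ^ k + b ^ k + c ^ k := by
  simp [ps, Fin.sum_univ_three]

lemma sq_bound {x B : ℝ} (hB : 0 ≤ B) (h : x ^ 2 ≤ B ^ 2) : -B ≤ x ∧ x ≤ B :=
  abs_le.mp (abs_le_of_sq_le_sq h hB)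

lemma final3 (S t b : ℝ) (hS1 : 0.47 ≤ S) (hS2 : S ≤ 0.5206) (ht : t ^ 2 ≤ 0.0031)
    (hb : b ^ 2 ≤ 0.0075) :
    0 ≤ (2 * t + b) ^ 2 / 9 + (6 * S * t + 2 * t ^ 3 + b ^ 3) ^ 2 / 81 +
      (2 * t ^ 2 + b ^ 2) * (4 * S + 2 * t ^ 2 + b ^ 2 - 2) / 27 +
      (12 * S * t ^ 2 + 2 * t ^ 4 + b ^ 4) *
        (4 * S ^ 2 + (12 * S * t ^ 2 + 2 * t ^ 4 + b ^ 4) - 6 / 5) / 243 -
      4 * 3 * (t ^ 2 + b ^ 4 / 30) / 729 := by
  have ht0 := sq_nonneg t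
  have hb0 := sq_nonneg b
  set T := t ^ 2 with hT
  set Q := b ^ 2 with hQ
  have t4 : t ^ 4 = T ^ 2 := by rw [hT]; ring
  have b4 : b ^ 4 = Q ^ 2 := by rw [hQ]; ring
  have hT2 : T ^ 2 ≤ 0.0031 * T := by nlinarith
  have hQ2 : Q ^ 2 ≤ 0.0075 * Q := by nlinarith
  have hT20 : 0 ≤ T ^ 2 := sq_nonneg T
  have hQ20 : 0 ≤ Q ^ 2 := sq_nonneg Q
  rw [t4, b4]
  -- third term
  have h3 : -(0.12 * (2 * T + Q)) ≤ (2 * T + Q) * (4 * S + 2 * T + Q - 2) := by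
    have : (0:ℝ) ≤ 2 * T + Q := by linarith
    nlinarith
  -- fourth term
  have hD : 12 * S * T + 2 * T ^ 2 + Q ^ 2 ≤ 6.26 * T + 0.0075 * Q := by nlinarith
  have hD0 : 0 ≤ 12 * S * T + 2 * T ^ 2 + Q ^ 2 := by nlinarith
  have h4 : -(0.3164 * (6.26 * T + 0.0075 * Q)) ≤ (12 * S * T + 2 * T ^ 2 + Q ^ 2) *
        (4 * S ^ 2 + (12 * S * T + 2 * T ^ 2 + Q ^ 2) - 6 / 5) := by
    have h5 : -0.3164 ≤ 4 * S ^ 2 + (12 * S * T + 2 * T ^ 2 + Q ^ 2) - 6 / 5 := by nlinarith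
    nlinarith
  -- second term
  set w := 2 * t + b with hw
  set c := 6 * S + 2 * T - 2 * Q with hc
  have hc1 : 2.805 ≤ c := by rw [hc]; linarith
  have e2 : 6 * S * t + 2 * t ^ 3 + b ^ 3 = c * t + Q * w := by
    rw [hc, hw, hT, hQ]; ring
  have h2 : 0.99 * (c * t) ^ 2 - 99 * (Q * w) ^ 2 ≤ (c * t + Q * w) ^ 2 := by
    nlinarith [sq_nonneg (c * t + 100 * (Q * w))]
  have h2a : 7.868 * T ≤ (c * t) ^ 2 := by
    rw [mul_pow, ← hT]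
    have : 7.868 ≤ c ^ 2 := by nlinarith
    nlinarith
  have h2b : (Q * w) ^ 2 ≤ 0.00005625 * w ^ 2 := by
    rw [mul_pow]
    have : Q ^ 2 ≤ 0.00005625 := by nlinarith
    nlinarith [sq_nonneg w]
  rw [e2]
  -- `b` in terms of `w`
  have hQw : Q ≤ 5 * T + 5 * w ^ 2 := by
    have : b = w - 2 * t := by rw [hw]; ring
    rw [hQ, this, hT]
    nlinarith [sq_nonneg (t + 2 * w)]
  have hw0 := sq_nonneg w
  linarith

lemma root3 (y p q r : ℝ) (hy : -1 ≤ y ∧ y ≤ 1) (h : y ^ 3 - y / 2 = p * y ^ 2 - q * y + r)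
    (hp : -0.0237 ≤ p ∧ p ≤ 0.0237) (hq : -0.0209 ≤ q ∧ q ≤ 0.0209) (hr : -0.0361 ≤ r ∧ r ≤ 0.0361) :
    (-0.0863 ≤ y ∧ y ≤ 0.0863 ∧ y ^ 2 ≤ 0.0075) ∨
    (0.6 ≤ y ∧ y ≤ 0.8 ∧ 0.36 ≤ y ^ 2 ∧ y ^ 2 ≤ 0.64) ∨
    (-0.8 ≤ y ∧ y ≤ -0.6 ∧ 0.36 ≤ y ^ 2 ∧ y ^ 2 ≤ 0.64) := by
  have key : ∀ (y p q r : ℝ), 0 ≤ y → y ≤ 1 → y ^ 3 - y / 2 = p * y ^ 2 - q * y + r →
      (-0.0237 ≤ p ∧ p ≤ 0.0237) → (-0.0209 ≤ q ∧ q ≤ 0.0209) → (-0.0361 ≤ r ∧ r ≤ 0.0361) →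
      y ≤ 0.0863 ∨ (0.6 ≤ y ∧ y ≤ 0.8) := by
    intro y p q r hy0 hy1 h hp hq hr
    have hy2 : 0 ≤ y ^ 2 := sq_nonneg y
    have u1 : p * y ^ 2 ≤ 0.0237 * y ^ 2 := by nlinarith [hp.2]
    have u2 : -(0.0237 * y ^ 2) ≤ p * y ^ 2 := by nlinarith [hp.1]
    have u3 : q * y ≤ 0.0209 * y := by nlinarith [hq.2]
    have u4 : -(0.0209 * y) ≤ q * y := by nlinarith [hq.1]
    by_contra hcon
    push Not at hcon
    obtain ⟨h1, h2⟩ := hcon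
    rcases lt_or_ge y 0.6 with h3 | h3
    · have g1 : 0 < (y - 0.0863) * (0.6 - y) := mul_pos (by linarith) (by linarith)
      have g2 : 0 < (y - 0.0863) * (0.6 - y) * (y + 0.71) := mul_pos g1 (by linarith)
      nlinarith [g1, g2, hr.1, hr.2]
    · have h4 := h2 h3
      have g1 : 0 < (y - 0.8) * y := mul_pos (by linarith) (by linarith)
      have g2 : 0 < (y - 0.8) * y * y := mul_pos g1 (by linarith)
      nlinarith [g1, g2, hr.1, hr.2]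
  rcases le_total 0 y with h0 | h0
  · rcases key y p q r h0 hy.2 h hp hq hr with h1 | ⟨h1, h2⟩
    · left; refine ⟨by linarith, h1, by nlinarith⟩
    · right; left; exact ⟨h1, h2, by nlinarith, by nlinarith⟩
  · rcases key (-y) (-p) q (-r) (by linarith) (by linarith [hy.1])
      (by have : (-y) ^ 3 - (-y) / 2 = -(y ^ 3 - y / 2) := by ring
          rw [this, h]; ring) ⟨by linarith [hp.2], by linarith [hp.1]⟩ hq
          ⟨by linarith [hr.2], by linarith [hr.1]⟩ with h1 | ⟨h1, h2⟩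
    · left; refine ⟨by linarith, by linarith, by nlinarith⟩
    · right; right; exact ⟨by linarith, by linarith, by nlinarith, by nlinarith⟩

lemma pow_le_four (b : ℝ) (hb : b ^ 2 ≤ 1) (j : ℕ) : b ^ (2 * (j + 3)) ≤ b ^ 4 := by
  rw [show 2 * (j + 3) = 4 + 2 * (j + 1) by ring, pow_add, pow_mul b 2 (j + 1)]
  have h3 : (b ^ 2) ^ (j + 1) ≤ 1 := pow_le_one₀ (sq_nonneg b) hb
  have h4 : 0 ≤ b ^ 4 := by positivity
  calc b ^ 4 * (b ^ 2) ^ (j + 1) ≤ b ^ 4 * 1 := mul_le_mul_of_nonneg_left h3 h4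
    _ = b ^ 4 := by ring

lemma quad_bd (B : ℝ) (hB : 0 ≤ B) (j : ℕ) :
    B ≤ (2 * ((j : ℝ) + 3)) * (2 * ((j : ℝ) + 3) - 1) * (B / 30) := by
  have hj : (0:ℝ) ≤ j := by positivity
  nlinarith [mul_nonneg hj hB, mul_nonneg hj (mul_nonneg hj hB)]

lemma bd3 (p1 p2 p3 : ℝ)
    (hB : p1 ^ 2 / 9 + p3 ^ 2 / 81 + (p2 - 1) ^ 2 / 27 ≤ 0.0000621) :
    (-0.0237 ≤ p1 ∧ p1 ≤ 0.0237) ∧ (-0.0410 ≤ p2 - 1 ∧ p2 - 1 ≤ 0.0410) ∧
    (-0.0710 ≤ p3 ∧ p3 ≤ 0.0710) := by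
  have h1 := sq_nonneg p1
  have h2 := sq_nonneg (p2 - 1)
  have h3 := sq_nonneg p3
  refine ⟨sq_bound (by norm_num) (by linarith), sq_bound (by norm_num) (by linarith),
    sq_bound (by norm_num) (by linarith)⟩

lemma mulbd {x y X Y : ℝ} (hx : -X ≤ x ∧ x ≤ X) (hy : -Y ≤ y ∧ y ≤ Y) :
    -(X * Y) ≤ x * y ∧ x * y ≤ X * Y := by
  have h := abs_le.mpr hx
  have h' := abs_le.mpr hy
  have hX : 0 ≤ X := (abs_nonneg x).trans h
  apply abs_le.mp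
  rw [abs_mul]
  exact mul_le_mul h h' (abs_nonneg _) hX

lemma be3 (p1 p2 p3 : ℝ) (q1 : -0.0237 ≤ p1 ∧ p1 ≤ 0.0237)
    (q2 : -0.0410 ≤ p2 - 1 ∧ p2 - 1 ≤ 0.0410) (q3 : -0.0710 ≤ p3 ∧ p3 ≤ 0.0710) :
    (-0.0209 ≤ (p1 ^ 2 - p2) / 2 + 1 / 2 ∧ (p1 ^ 2 - p2) / 2 + 1 / 2 ≤ 0.0209) ∧
    (-0.0361 ≤ (p1 ^ 3 - 3 * p1 * p2 + 2 * p3) / 6 ∧
      (p1 ^ 3 - 3 * p1 * p2 + 2 * p3) / 6 ≤ 0.0361) := by
  have h2 : -1.041 ≤ p2 ∧ p2 ≤ 1.041 := ⟨by linarith [q2.1], by linarith [q2.2]⟩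
  have h11 := mulbd q1 q1
  have h111 := mulbd h11 q1
  have h12 := mulbd q1 h2
  have e1 : p1 ^ 2 = p1 * p1 := by ring
  have e2 : p1 ^ 3 = p1 * p1 * p1 := by ring
  have e3 : 3 * p1 * p2 = 3 * (p1 * p2) := by ring
  rw [e1, e2, e3]
  norm_num at h11 h111 h12
  refine ⟨⟨?_, ?_⟩, ⟨?_, ?_⟩⟩
  · linarith [q2.2, mul_self_nonneg p1]
  · linarith [q2.1, h11.2]
  · linarith [q3.1, h111.1, h12.2]
  · linarith [q3.2, h111.2, h12.1]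

lemma loc3 (a b c : ℝ) (ha1 : -1 ≤ a ∧ a ≤ 1) (hb1 : -1 ≤ b ∧ b ≤ 1) (hc1 : -1 ≤ c ∧ c ≤ 1)
    (hcb : c ≤ b) (hba : b ≤ a)
    (q1 : -0.0237 ≤ c + b + a ∧ c + b + a ≤ 0.0237)
    (q2 : -0.0410 ≤ c ^ 2 + b ^ 2 + a ^ 2 - 1 ∧ c ^ 2 + b ^ 2 + a ^ 2 - 1 ≤ 0.0410)
    (q3 : -0.0710 ≤ c ^ 3 + b ^ 3 + a ^ 3 ∧ c ^ 3 + b ^ 3 + a ^ 3 ≤ 0.0710) :
    (0.6 ≤ a ∧ a ≤ 0.8) ∧ (-0.8 ≤ c ∧ c ≤ -0.6) ∧
      (-0.0863 ≤ b ∧ b ≤ 0.0863 ∧ b ^ 2 ≤ 0.0075) := by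
  obtain ⟨be2, be3'⟩ := be3 _ _ _ q1 q2 q3
  have hra := root3 a _ _ _ ha1 (by ring) q1 be2 be3'
  have hrb := root3 b _ _ _ hb1 (by ring) q1 be2 be3'
  have hrc := root3 c _ _ _ hc1 (by ring) q1 be2 be3'
  clear be2 be3' q3
  obtain ⟨q11, q12⟩ := q1
  obtain ⟨q21, q22⟩ := q2
  rcases hra with ⟨a1, a2, a3⟩ | ⟨a1, a2, a3, a4⟩ | ⟨a1, a2, a3, a4⟩ <;>
  rcases hrb with ⟨b1, b2, b3⟩ | ⟨b1, b2, b3, b4⟩ | ⟨b1, b2, b3, b4⟩ <;>
  rcases hrc with ⟨c1, c2, c3⟩ | ⟨c1, c2, c3, c4⟩ | ⟨c1, c2, c3, c4⟩ <;>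
  first
    | exact ⟨⟨a1, a2⟩, ⟨c1, c2⟩, ⟨b1, b2, b3⟩⟩
    | (exfalso; linarith)

lemma case_three : ∃ s ∈ cube 3, IsSymmetric 3 s ∧ ∀ y ∈ cube 3, F 3 s ≤ F 3 y := by
  obtain ⟨x, hx, hmono, hmin⟩ := exists_min 3
  obtain ⟨c, hc⟩ : ∃ c, c = x 0 := ⟨_, rfl⟩
  obtain ⟨b, hb⟩ : ∃ b, b = x 1 := ⟨_, rfl⟩
  obtain ⟨a, ha⟩ : ∃ a, a = x 2 := ⟨_, rfl⟩
  have hxe : x = ![c, b, a] := by ext i; fin_cases i <;> simp [hc, hb, ha]
  have hcb : c ≤ b := by rw [hc, hb]; exact hmono (by decide)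
  have hba : b ≤ a := by rw [ha, hb]; exact hmono (by decide)
  have hc1 : -1 ≤ c ∧ c ≤ 1 := by rw [hc]; exact hx 0
  have hb1 : -1 ≤ b ∧ b ≤ 1 := by rw [hb]; exact hx 1
  have ha1 : -1 ≤ a ∧ a ≤ 1 := by rw [ha]; exact hx 2
  have hmem : ∀ u v w : ℝ, (-1 ≤ u ∧ u ≤ 1) → (-1 ≤ v ∧ v ≤ 1) → (-1 ≤ w ∧ w ≤ 1) →
      (![u, v, w] : Fin 3 → ℝ) ∈ cube 3 := by
    intro u v w hu hv hw i
    fin_cases i
    · exact hu
    · exact hv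
    · exact hw
  have hodd : ∀ r : ℝ, ∀ j, ps ![-r, 0, r] (2 * j + 1) = 0 := by
    intro r j
    rw [ps3, Odd.neg_pow ⟨j, rfl⟩, zero_pow (by omega)]; ring
  have hev : ∀ r : ℝ, ∀ j, 0 < j → ps ![-r, 0, r] (2 * j) = 2 * (r ^ 2) ^ j := by
    intro r j hj
    rw [ps3, Even.neg_pow (by simp), zero_pow (by omega), pow_mul]; ring
  -- global part
  obtain ⟨r, hr⟩ : ∃ r, r = Real.sqrt (1 / 2) := ⟨_, rfl⟩
  have hr0 : 0 ≤ r := by rw [hr]; exact Real.sqrt_nonneg _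
  have hr2 : r ^ 2 = 1 / 2 := by rw [hr]; exact Real.sq_sqrt (by norm_num)
  have hr1 : r ≤ 1 := by rw [hr]; exact Real.sqrt_le_one.mpr (by norm_num)
  have hsm := hmem (-r) 0 r ⟨by linarith, by linarith⟩ ⟨by norm_num, by norm_num⟩
    ⟨by linarith, by linarith⟩
  have k2 : ps ![-r, 0, r] 2 = 2 * (r ^ 2) ^ 1 := hev r 1 (by norm_num)
  have k4 : ps ![-r, 0, r] 4 = 2 * (r ^ 2) ^ 2 := hev r 2 (by norm_num)
  have k6 : ps ![-r, 0, r] 6 = 2 * (r ^ 2) ^ 3 := hev r 3 (by norm_num)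
  have k8 : ps ![-r, 0, r] 8 = 2 * (r ^ 2) ^ 4 := hev r 4 (by norm_num)
  have hglob := global_ineq (n := 3) (by norm_num) x _ hx hsm (5 / 28) (1 / 3) (1 / 3) (hodd r)
    (by rw [k6, hr2]; norm_num [abs_le])
    (by rw [k8, hr2]; norm_num [abs_le])
    (by
      intro j
      rw [hev r (j + 5) (by omega), hr2]
      have h1 : (0:ℝ) < (1 / 2) ^ (j + 5) := by positivity
      have h2 : (1 / 2 : ℝ) ^ (j + 5) ≤ 1 / 32 := by
        rw [pow_add]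
        have : (1 / 2 : ℝ) ^ j ≤ 1 := pow_le_one₀ (by norm_num) (by norm_num)
        nlinarith
      have h3 : (0:ℝ) < (3:ℕ) / (2 * ((j:ℝ) + 5) + 1) := by positivity
      have h4 : ((3:ℕ):ℝ) / (2 * ((j:ℝ) + 5) + 1) ≤ 1 / 3 := by
        rw [div_le_iff₀ (by positivity)]
        have hj : (0:ℝ) ≤ j := by positivity
        push_cast
        linarith
      rw [abs_le]
      constructor <;> linarith)
  have hx2 := hmin _ hsm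
  rw [k2, k4, hr2] at hglob
  push_cast at hglob
  obtain ⟨p1, hp1⟩ : ∃ p, p = ps x 1 := ⟨_, rfl⟩
  obtain ⟨p2, hp2⟩ : ∃ p, p = ps x 2 := ⟨_, rfl⟩
  obtain ⟨p3, hp3⟩ : ∃ p, p = ps x 3 := ⟨_, rfl⟩
  obtain ⟨p4, hp4⟩ : ∃ p, p = ps x 4 := ⟨_, rfl⟩
  rw [← hp1, ← hp2, ← hp3, ← hp4] at hglob
  have hB : p1 ^ 2 / 9 + p3 ^ 2 / 81 + (p2 - 1) ^ 2 / 27 ≤ 0.0000621 := by
    have h4 := sq_nonneg (p4 - 3 / 5)
    have e : (p2 - 3 / 3) ^ 2 = (p2 - 1) ^ 2 := by norm_num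
    rw [e] at hglob
    norm_num at hglob ⊢
    linarith
  obtain ⟨q1, q2, q3⟩ := bd3 p1 p2 p3 hB
  have ep1 : p1 = c + b + a := by rw [hp1, hxe, ps3]; ring
  have ep2 : p2 = c ^ 2 + b ^ 2 + a ^ 2 := by rw [hp2, hxe, ps3]
  have ep3 : p3 = c ^ 3 + b ^ 3 + a ^ 3 := by rw [hp3, hxe, ps3]
  have ep4 : p4 = c ^ 4 + b ^ 4 + a ^ 4 := by rw [hp4, hxe, ps3]
  have hloc := loc3 a b c ha1 hb1 hc1 hcb hba (by rw [← ep1]; exact q1) (by rw [← ep2]; exact q2)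
    (by rw [← ep3]; exact q3)
  obtain ⟨⟨a1, a2⟩, ⟨c1, c2⟩, ⟨b1, b2, b3⟩⟩ := hloc
  -- local part
  obtain ⟨σ, hσ⟩ : ∃ σ, σ = (a - c) / 2 := ⟨_, rfl⟩
  obtain ⟨t, ht⟩ : ∃ t, t = (a + c) / 2 := ⟨_, rfl⟩
  have hσ1 : 0.6 ≤ σ := by rw [hσ]; linarith
  have hσ2 : σ ≤ 0.8 := by rw [hσ]; linarith
  have ea : a = σ + t := by rw [hσ, ht]; ring
  have ec : c = t - σ := by rw [hσ, ht]; ring
  have ht1 : -0.0551 ≤ t ∧ t ≤ 0.0551 := by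
    rw [ht]; constructor <;> linarith [q1.1, q1.2]
  have ht2 : t ^ 2 ≤ 0.0031 := by
    have := (mulbd (X := 0.0551) ⟨by linarith [ht1.1], ht1.2⟩ ⟨by linarith [ht1.1], ht1.2⟩ (x := t) (y := t) (Y := 0.0551)).2
    rw [sq]; norm_num at this ⊢; linarith
  have ht0 := sq_nonneg t
  have hb0 := sq_nonneg b
  have hsum : p2 = 2 * σ ^ 2 + 2 * t ^ 2 + b ^ 2 := by rw [ep2, ea, ec]; ring
  have hS1 : 0.47 ≤ σ ^ 2 := by linarith [q2.1]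
  have hS2 : σ ^ 2 ≤ 0.5206 := by linarith [q2.2]
  have hsym := hmem (-σ) 0 σ ⟨by linarith, by linarith⟩ ⟨by norm_num, by norm_num⟩
    ⟨by linarith, by linarith⟩
  have hpair := fun j => pair_bound a (-c) (abs_le.mpr ha1) (abs_le.mpr ⟨by linarith, by linarith⟩) j
  have hσ' : (a + -c) / 2 = σ := by rw [hσ]; ring
  have ht' : (a - -c) / 2 = t := by rw [ht]; ring
  rw [hσ', ht'] at hpair
  have hl := local_ineq (n := 3) (by norm_num) x ![-σ, 0, σ] hx hsym (t ^ 2 + b ^ 4 / 30)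
    (by positivity) (hodd σ) ?_ ?_
  · have hfin := final3 (σ ^ 2) t b hS1 hS2 ht2 b3
    have es2 : ps ![-σ, 0, σ] 2 = 2 * σ ^ 2 := by
      have := hev σ 1 (by norm_num); simpa using this
    have es4 : ps ![-σ, 0, σ] 4 = 2 * (σ ^ 2) ^ 2 := hev σ 2 (by norm_num)
    rw [es2, es4, ← hp1, ← hp2, ← hp3, ← hp4] at hl
    have e1 : p1 = 2 * t + b := by rw [ep1, ea, ec]; ring
    have e3' : p3 = 6 * σ ^ 2 * t + 2 * t ^ 3 + b ^ 3 := by rw [ep3, ea, ec]; ring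
    have e4' : p4 = 2 * (σ ^ 2) ^ 2 + (12 * σ ^ 2 * t ^ 2 + 2 * t ^ 4 + b ^ 4) := by
      rw [ep4, ea, ec]; ring
    refine ⟨_, hsym, ⟨fun _ => -σ, fun _ => ⟨by linarith, by linarith⟩, fun i => ?_⟩, ?_⟩
    · fin_cases i <;> simp
    · intro y hy
      refine le_trans ?_ (hmin y hy)
      have hge : 0 ≤ ((3:ℕ):ℝ) * F 3 x - ((3:ℕ):ℝ) * F 3 ![-σ, 0, σ] := by
        refine le_trans hfin (le_trans (le_of_eq ?_) hl)
        rw [e1, hsum, e3', e4']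
        push_cast
        ring
      push_cast at hge
      linarith
  · intro j
    rcases Nat.eq_zero_or_pos j with rfl | hj
    · simp [ps]
    · rw [hev σ j hj, hxe, ps3, ← pow_mul]
      have h1 := (hpair j).1
      rw [Even.neg_pow (by simp)] at h1
      have h2 : 0 ≤ b ^ (2 * j) := by rw [pow_mul]; positivity
      linarith
  · intro j
    rw [hev σ (j + 3) (by omega), hxe, ps3, ← pow_mul]
    have h1 := (hpair (j + 2)).2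
    rw [show j + 2 + 1 = j + 3 by ring, Even.neg_pow (by simp)] at h1
    have h2 : b ^ (2 * (j + 3)) ≤ b ^ 4 := pow_le_four b (b3.trans (by norm_num)) j
    have h5 := quad_bd (b ^ 4) (by positivity) j
    push_cast at h1
    have e : (2 * ((j:ℝ) + 2 + 1)) = 2 * ((j:ℝ) + 3) := by ring
    rw [e] at h1
    linarith


/-! ### The case `n = 4` -/

lemma ps4 (a b c d : ℝ) (k : ℕ) : ps ![a, b, c, d] k = a ^ k + b ^ k + c ^ k + d ^ k := by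
  simp [ps, Fin.sum_univ_four]

lemma sq_aux1 (t w : ℝ) : (w - t) ^ 2 ≤ 1.2 * t ^ 2 + 6 * w ^ 2 := by
  nlinarith [sq_nonneg (t + 5 * w)]

lemma sq_aux2 (x y : ℝ) : 0.9 * x ^ 2 - 9 * y ^ 2 ≤ (x + y) ^ 2 := by
  nlinarith [sq_nonneg (x + 10 * y)]

lemma final4 (S1 S2 t1 t2 : ℝ) (hS1 : 0.5722 ≤ S1) (hS1' : S1 ≤ 0.681) (hS2 : 0 ≤ S2)
    (hS2' : S2 ≤ 0.0945) (ht1 : t1 ^ 2 ≤ 0.0012) (ht2 : t2 ^ 2 ≤ 0.0014) (p2 p4 : ℝ)
    (hp2 : -0.0101 ≤ p2 - 4 / 3) (hp4 : -0.0302 ≤ p4 - 4 / 5) :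
    0 ≤ (2 * t1 + 2 * t2) ^ 2 / 9 +
      (6 * S1 * t1 + 2 * t1 ^ 3 + 6 * S2 * t2 + 2 * t2 ^ 3) ^ 2 / 81 +
      (2 * t1 ^ 2 + 2 * t2 ^ 2) * (2 * p2 - (2 * t1 ^ 2 + 2 * t2 ^ 2) - 8 / 3) / 27 +
      (12 * S1 * t1 ^ 2 + 2 * t1 ^ 4 + 12 * S2 * t2 ^ 2 + 2 * t2 ^ 4) *
        (2 * p4 - (12 * S1 * t1 ^ 2 + 2 * t1 ^ 4 + 12 * S2 * t2 ^ 2 + 2 * t2 ^ 4) - 8 / 5) / 243 -
      4 * 4 * (t1 ^ 2 + t2 ^ 2) / 729 := by
  have h10 := sq_nonneg t1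
  have h20 := sq_nonneg t2
  obtain ⟨T1, hT1⟩ : ∃ T, T = t1 ^ 2 := ⟨_, rfl⟩
  obtain ⟨T2, hT2⟩ : ∃ T, T = t2 ^ 2 := ⟨_, rfl⟩
  have t14 : t1 ^ 4 = T1 ^ 2 := by rw [hT1]; ring
  have t24 : t2 ^ 4 = T2 ^ 2 := by rw [hT2]; ring
  have t13 : t1 ^ 3 = T1 * t1 := by rw [hT1]; ring
  have t23 : t2 ^ 3 = T2 * t2 := by rw [hT2]; ring
  rw [t14, t24, t13, t23]
  rw [← hT1] at h10 ht1 ⊢
  rw [← hT2] at h20 ht2 ⊢
  have hT12 : T1 ^ 2 ≤ 0.0012 * T1 := by nlinarith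
  have hT22 : T2 ^ 2 ≤ 0.0014 * T2 := by nlinarith
  have hT120 : 0 ≤ T1 ^ 2 := sq_nonneg T1
  have hT220 : 0 ≤ T2 ^ 2 := sq_nonneg T2
  -- third term
  have h3 : -(0.0254 * (2 * T1 + 2 * T2)) ≤ (2 * T1 + 2 * T2) * (2 * p2 - (2 * T1 + 2 * T2) - 8 / 3) := by
    have ha : (0:ℝ) ≤ 2 * T1 + 2 * T2 := by linarith
    have hb : -0.0254 ≤ 2 * p2 - (2 * T1 + 2 * T2) - 8 / 3 := by linarith
    nlinarith
  -- fourth term
  have hST1 : S1 * T1 ≤ 0.681 * T1 := mul_le_mul_of_nonneg_right hS1' h10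
  have hST2 : S2 * T2 ≤ 0.0945 * T2 := mul_le_mul_of_nonneg_right hS2' h20
  have hST10 : 0 ≤ S1 * T1 := mul_nonneg (by linarith) h10
  have hST20 : 0 ≤ S2 * T2 := mul_nonneg hS2 h20
  have hD : 12 * S1 * T1 + 2 * T1 ^ 2 + 12 * S2 * T2 + 2 * T2 ^ 2 ≤ 8.18 * T1 + 1.14 * T2 := by linarith
  have hD0 : 0 ≤ 12 * S1 * T1 + 2 * T1 ^ 2 + 12 * S2 * T2 + 2 * T2 ^ 2 := by linarith
  have h4 : -(0.0723 * (8.18 * T1 + 1.14 * T2)) ≤
      (12 * S1 * T1 + 2 * T1 ^ 2 + 12 * S2 * T2 + 2 * T2 ^ 2) *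
        (2 * p4 - (12 * S1 * T1 + 2 * T1 ^ 2 + 12 * S2 * T2 + 2 * T2 ^ 2) - 8 / 5) := by
    have h5 : -0.0723 ≤ 2 * p4 - (12 * S1 * T1 + 2 * T1 ^ 2 + 12 * S2 * T2 + 2 * T2 ^ 2) - 8 / 5 := by
      linarith
    obtain ⟨D, hDD⟩ : ∃ D, D = 12 * S1 * T1 + 2 * T1 ^ 2 + 12 * S2 * T2 + 2 * T2 ^ 2 := ⟨_, rfl⟩
    rw [← hDD] at h5 hD hD0 ⊢
    nlinarith
  -- second term
  obtain ⟨w, hw⟩ : ∃ w, w = t1 + t2 := ⟨_, rfl⟩
  obtain ⟨c, hc⟩ : ∃ c, c = (6 * S1 + 2 * T1) - (6 * S2 + 2 * T2) := ⟨_, rfl⟩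
  obtain ⟨e, he⟩ : ∃ e, e = 6 * S2 + 2 * T2 := ⟨_, rfl⟩
  have hc1 : 2.86 ≤ c := by rw [hc]; linarith
  have he1 : 0 ≤ e := by rw [he]; linarith
  have he2 : e ≤ 0.5699 := by rw [he]; linarith
  have e2 : 6 * S1 * t1 + 2 * (T1 * t1) + 6 * S2 * t2 + 2 * (T2 * t2) = c * t1 + e * w := by
    rw [hc, he, hw]; ring
  have h2 : 0.9 * (c * t1) ^ 2 - 9 * (e * w) ^ 2 ≤ (c * t1 + e * w) ^ 2 := sq_aux2 _ _
  have h2a : 8.179 * T1 ≤ (c * t1) ^ 2 := by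
    rw [mul_pow, ← hT1]
    have : 8.179 ≤ c ^ 2 := by
      have := mul_self_le_mul_self (by norm_num) hc1
      rw [sq]; norm_num at this ⊢; linarith
    exact mul_le_mul_of_nonneg_right this h10
  have h2b : (e * w) ^ 2 ≤ 0.325 * w ^ 2 := by
    rw [mul_pow]
    have : e ^ 2 ≤ 0.325 := by
      have := mul_self_le_mul_self he1 he2
      rw [sq]; norm_num at this ⊢; linarith
    exact mul_le_mul_of_nonneg_right this (sq_nonneg w)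
  rw [e2]
  have hT2w : T2 ≤ 1.2 * T1 + 6 * w ^ 2 := by
    have : t2 = w - t1 := by rw [hw]; ring
    rw [hT2, this, hT1]
    exact sq_aux1 t1 w
  have hw0 := sq_nonneg w
  have e5 : (2 * t1 + 2 * t2) ^ 2 = 4 * w ^ 2 := by rw [hw]; ring
  rw [e5]
  linarith

lemma le_of_sq_le_sq' {a b : ℝ} (_ha : 0 ≤ a) (hb : 0 ≤ b) (h : a ^ 2 ≤ b ^ 2) : a ≤ b :=
  le_of_sq_le_sq h hb

lemma root4 (y e1 e2 e3 e4 : ℝ) (hy : -1 ≤ y ∧ y ≤ 1)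
    (h : (y ^ 2 - 1 / 3) ^ 2 = 4 / 45 + e1 * y ^ 3 - e2 * y ^ 2 + e3 * y - e4)
    (h1 : -0.0059 ≤ e1 ∧ e1 ≤ 0.0059) (h2 : -0.00508 ≤ e2 ∧ e2 ≤ 0.00508)
    (h3 : -0.0098 ≤ e3 ∧ e3 ≤ 0.0098) (h4 : -0.01098 ≤ e4 ∧ e4 ≤ 0.01098) :
    (-0.3073 ≤ y ∧ y ≤ 0.3073 ∧ y ^ 2 ≤ 0.0944) ∨
    (0.7565 ≤ y ∧ y ≤ 0.8252 ∧ 0.5723 ≤ y ^ 2 ∧ y ^ 2 ≤ 0.6808) ∨
    (-0.8252 ≤ y ∧ y ≤ -0.7565 ∧ 0.5723 ≤ y ^ 2 ∧ y ^ 2 ≤ 0.6808) := by
  have hyy := mulbd (X := 1) (Y := 1) hy hy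
  have hyyy := mulbd (X := 1) (Y := 1) (by norm_num at hyy ⊢; exact hyy) hy
  have hy2 : -1 ≤ y ^ 2 ∧ y ^ 2 ≤ 1 := by
    rw [sq]; norm_num at hyy; exact hyy
  have hy3 : -1 ≤ y ^ 3 ∧ y ^ 3 ≤ 1 := by
    rw [show y ^ 3 = y * y * y by ring]; norm_num at hyyy; exact hyyy
  have b1 := mulbd h1 hy3
  have b2 := mulbd h2 hy2
  have b3 := mulbd h3 hy
  norm_num at b1 b2 b3
  have u1 : (y ^ 2 - 1 / 3) ^ 2 ≤ 0.12066 := by
    rw [h]; linarith [b1.2, b2.1, b3.2, h4.1]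
  have u2 : 0.05712 ≤ (y ^ 2 - 1 / 3) ^ 2 := by
    rw [h]; linarith [b1.1, b2.2, b3.1, h4.2]
  obtain ⟨Y, hY⟩ : ∃ Y, Y = y ^ 2 := ⟨_, rfl⟩
  rw [← hY] at u1 u2 ⊢
  have hY2 : Y ≤ 0.6808 := by
    have := (sq_bound (x := Y - 1 / 3) (B := 0.3474) (by norm_num) (by norm_num at u1 ⊢; linarith)).2
    linarith
  have hY3 : Y ≤ 0.0944 ∨ 0.5723 ≤ Y := by
    by_contra hcon
    push Not at hcon
    have h1 : (Y - 1 / 3) ^ 2 < 0.23897 ^ 2 :=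
      sq_lt_sq' (by linarith [hcon.1]) (by linarith [hcon.2])
    norm_num at h1 u2
    linarith
  rcases hY3 with hY3 | hY3
  · left
    have := sq_bound (x := y) (B := 0.3073) (by norm_num) (by rw [← hY]; norm_num at hY3 ⊢; linarith)
    exact ⟨this.1, this.2, hY3⟩
  · right
    have hup := sq_bound (x := y) (B := 0.82521) (by norm_num)
      (by rw [← hY]; norm_num at hY2 ⊢; linarith)
    rcases le_total 0 y with h0 | h0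
    · left
      refine ⟨?_, ?_, hY3, hY2⟩
      · exact le_of_sq_le_sq' (by norm_num) h0 (by rw [← hY]; norm_num at hY3 ⊢; linarith)
      · exact le_of_sq_le_sq' h0 (by norm_num) (by rw [← hY]; norm_num at hY2 ⊢; linarith)
    · right
      have h0' : 0 ≤ -y := by linarith
      refine ⟨?_, ?_, hY3, hY2⟩
      · have := le_of_sq_le_sq' (a := -y) (b := 0.8252) h0' (by norm_num)
          (by rw [neg_sq, ← hY]; norm_num at hY2 ⊢; linarith)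
        linarith
      · have := le_of_sq_le_sq' (a := 0.7565) (b := -y) (by norm_num) h0'
          (by rw [neg_sq, ← hY]; norm_num at hY3 ⊢; linarith)
        linarith

lemma bd4 (p1 p2 p3 p4 : ℝ)
    (hB : p1 ^ 2 / 9 + p3 ^ 2 / 81 + (p2 - 4 / 3) ^ 2 / 27 + (p4 - 4 / 5) ^ 2 / 243 ≤ 0.00000375) :
    (-0.0059 ≤ p1 ∧ p1 ≤ 0.0059) ∧ (-0.0101 ≤ p2 - 4 / 3 ∧ p2 - 4 / 3 ≤ 0.0101) ∧
    (-0.0175 ≤ p3 ∧ p3 ≤ 0.0175) ∧ (-0.0302 ≤ p4 - 4 / 5 ∧ p4 - 4 / 5 ≤ 0.0302) := by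
  have h1 := sq_nonneg p1
  have h2 := sq_nonneg (p2 - 4 / 3)
  have h3 := sq_nonneg p3
  have h4 := sq_nonneg (p4 - 4 / 5)
  refine ⟨sq_bound (by norm_num) (by linarith), sq_bound (by norm_num) (by linarith),
    sq_bound (by norm_num) (by linarith), sq_bound (by norm_num) (by linarith)⟩

lemma be4 (p1 p2 p3 p4 : ℝ) (q1 : -0.0059 ≤ p1 ∧ p1 ≤ 0.0059)
    (q2 : -0.0101 ≤ p2 - 4 / 3 ∧ p2 - 4 / 3 ≤ 0.0101)
    (q3 : -0.0175 ≤ p3 ∧ p3 ≤ 0.0175) (q4 : -0.0302 ≤ p4 - 4 / 5 ∧ p4 - 4 / 5 ≤ 0.0302) :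
    (-0.00508 ≤ (p1 ^ 2 - p2) / 2 + 2 / 3 ∧ (p1 ^ 2 - p2) / 2 + 2 / 3 ≤ 0.00508) ∧
    (-0.0098 ≤ (p1 ^ 3 - 3 * p1 * p2 + 2 * p3) / 6 ∧
      (p1 ^ 3 - 3 * p1 * p2 + 2 * p3) / 6 ≤ 0.0098) ∧
    (-0.01098 ≤ (p1 ^ 4 - 6 * p1 ^ 2 * p2 + 3 * p2 ^ 2 + 8 * p1 * p3 - 6 * p4) / 24 - 1 / 45 ∧
      (p1 ^ 4 - 6 * p1 ^ 2 * p2 + 3 * p2 ^ 2 + 8 * p1 * p3 - 6 * p4) / 24 - 1 / 45 ≤ 0.01098) := by
  have h2 : -1.3435 ≤ p2 ∧ p2 ≤ 1.3435 := ⟨by linarith [q2.1], by linarith [q2.2]⟩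
  have h2' : -2.6768 ≤ p2 + 4 / 3 ∧ p2 + 4 / 3 ≤ 2.6768 := ⟨by linarith [q2.1], by linarith [q2.2]⟩
  have h11 := mulbd q1 q1
  have h111 := mulbd h11 q1
  have h1111 := mulbd h111 q1
  have h12 := mulbd q1 h2
  have h112 := mulbd h11 h2
  have h13 := mulbd q1 q3
  have h22 := mulbd q2 h2'
  have e1 : p1 ^ 2 = p1 * p1 := by ring
  have e2 : p1 ^ 3 = p1 * p1 * p1 := by ring
  have e3 : 3 * p1 * p2 = 3 * (p1 * p2) := by ring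
  have e4 : (p1 ^ 4 - 6 * p1 ^ 2 * p2 + 3 * p2 ^ 2 + 8 * p1 * p3 - 6 * p4) / 24 - 1 / 45 =
    (p1 * p1 * p1 * p1 - 6 * (p1 * p1 * p2) + 3 * ((p2 - 4 / 3) * (p2 + 4 / 3)) + 8 * (p1 * p3) -
      6 * (p4 - 4 / 5)) / 24 := by ring
  rw [e4, e1, e2, e3]
  norm_num at h11 h111 h12 h1111 h112 h13 h22
  refine ⟨⟨?_, ?_⟩, ⟨?_, ?_⟩, ⟨?_, ?_⟩⟩
  · linarith [q2.2, mul_self_nonneg p1]
  · linarith [q2.1, h11.2]
  · linarith [q3.1, h111.1, h12.2]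
  · linarith [q3.2, h111.2, h12.1]
  · linarith [h1111.1, h112.2, h22.1, h13.1, q4.2]
  · linarith [h1111.2, h112.1, h22.2, h13.2, q4.1]

lemma loc4 (a b c d : ℝ) (ha1 : -1 ≤ a ∧ a ≤ 1) (hb1 : -1 ≤ b ∧ b ≤ 1) (hc1 : -1 ≤ c ∧ c ≤ 1)
    (hd1 : -1 ≤ d ∧ d ≤ 1) (hdc : d ≤ c) (hcb : c ≤ b) (hba : b ≤ a)
    (q1 : -0.0059 ≤ d + c + b + a ∧ d + c + b + a ≤ 0.0059)
    (q2 : -0.0101 ≤ d ^ 2 + c ^ 2 + b ^ 2 + a ^ 2 - 4 / 3 ∧ d ^ 2 + c ^ 2 + b ^ 2 + a ^ 2 - 4 / 3 ≤ 0.0101)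
    (q3 : -0.0175 ≤ d ^ 3 + c ^ 3 + b ^ 3 + a ^ 3 ∧ d ^ 3 + c ^ 3 + b ^ 3 + a ^ 3 ≤ 0.0175)
    (q4 : -0.0302 ≤ d ^ 4 + c ^ 4 + b ^ 4 + a ^ 4 - 4 / 5 ∧ d ^ 4 + c ^ 4 + b ^ 4 + a ^ 4 - 4 / 5 ≤ 0.0302) :
    (0.7565 ≤ a ∧ a ≤ 0.8252) ∧ (-0.8252 ≤ d ∧ d ≤ -0.7565) ∧
      (-0.3073 ≤ b ∧ b ≤ 0.3073) ∧ (-0.3073 ≤ c ∧ c ≤ 0.3073) := by
  obtain ⟨be2, be3', be4'⟩ := be4 _ _ _ _ q1 q2 q3 q4
  have hra := root4 a _ _ _ _ ha1 (by ring) q1 be2 be3' be4'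
  have hrb := root4 b _ _ _ _ hb1 (by ring) q1 be2 be3' be4'
  have hrc := root4 c _ _ _ _ hc1 (by ring) q1 be2 be3' be4'
  have hrd := root4 d _ _ _ _ hd1 (by ring) q1 be2 be3' be4'
  clear be2 be3' be4' q3 q4
  obtain ⟨q11, q12⟩ := q1
  obtain ⟨q21, q22⟩ := q2
  rcases hra with ⟨a1, a2, a3⟩ | ⟨a1, a2, a3, a4⟩ | ⟨a1, a2, a3, a4⟩ <;>
  rcases hrb with ⟨b1, b2, b3⟩ | ⟨b1, b2, b3, b4⟩ | ⟨b1, b2, b3, b4⟩ <;>
  rcases hrc with ⟨c1, c2, c3⟩ | ⟨c1, c2, c3, c4⟩ | ⟨c1, c2, c3, c4⟩ <;>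
  rcases hrd with ⟨d1, d2, d3⟩ | ⟨d1, d2, d3, d4⟩ | ⟨d1, d2, d3, d4⟩ <;>
  first
    | exact ⟨⟨a1, a2⟩, ⟨d1, d2⟩, ⟨b1, b2⟩, ⟨c1, c2⟩⟩
    | (exfalso; linarith [sq_nonneg a, sq_nonneg b, sq_nonneg c, sq_nonneg d])


lemma case_four : ∃ s ∈ cube 4, IsSymmetric 4 s ∧ ∀ y ∈ cube 4, F 4 s ≤ F 4 y := by
  obtain ⟨x, hx, hmono, hmin⟩ := exists_min 4
  obtain ⟨d, hd⟩ : ∃ d, d = x 0 := ⟨_, rfl⟩
  obtain ⟨c, hc⟩ : ∃ c, c = x 1 := ⟨_, rfl⟩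
  obtain ⟨b, hb⟩ : ∃ b, b = x 2 := ⟨_, rfl⟩
  obtain ⟨a, ha⟩ : ∃ a, a = x 3 := ⟨_, rfl⟩
  have hxe : x = ![d, c, b, a] := by ext i; fin_cases i <;> simp [hd, hc, hb, ha]
  have hdc : d ≤ c := by rw [hd, hc]; exact hmono (by decide)
  have hcb : c ≤ b := by rw [hc, hb]; exact hmono (by decide)
  have hba : b ≤ a := by rw [ha, hb]; exact hmono (by decide)
  have hd1 : -1 ≤ d ∧ d ≤ 1 := by rw [hd]; exact hx 0
  have hc1 : -1 ≤ c ∧ c ≤ 1 := by rw [hc]; exact hx 1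
  have hb1 : -1 ≤ b ∧ b ≤ 1 := by rw [hb]; exact hx 2
  have ha1 : -1 ≤ a ∧ a ≤ 1 := by rw [ha]; exact hx 3
  have hmem : ∀ u v : ℝ, (-1 ≤ u ∧ u ≤ 1) → (-1 ≤ v ∧ v ≤ 1) →
      (![-u, -v, u, v] : Fin 4 → ℝ) ∈ cube 4 := by
    intro u v hu hv i
    fin_cases i
    · exact ⟨by simp; linarith [hu.2], by simp; linarith [hu.1]⟩
    · exact ⟨by simp; linarith [hv.2], by simp; linarith [hv.1]⟩
    · exact hu
    · exact hv
  have hodd : ∀ u v : ℝ, ∀ j, ps ![-u, -v, u, v] (2 * j + 1) = 0 := by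
    intro u v j
    rw [ps4, Odd.neg_pow ⟨j, rfl⟩, Odd.neg_pow ⟨j, rfl⟩]; ring
  have hev : ∀ u v : ℝ, ∀ j, ps ![-u, -v, u, v] (2 * j) = 2 * (u ^ 2) ^ j + 2 * (v ^ 2) ^ j := by
    intro u v j
    rw [ps4, Even.neg_pow (by simp), Even.neg_pow (by simp), pow_mul, pow_mul]; ring
  -- global part
  obtain ⟨ω, hω⟩ : ∃ ω, ω = Real.sqrt (4 / 45) := ⟨_, rfl⟩
  have hω0 : 0 ≤ ω := by rw [hω]; exact Real.sqrt_nonneg _
  have hω2 : ω ^ 2 = 4 / 45 := by rw [hω]; exact Real.sq_sqrt (by norm_num)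
  have hω1 : ω ≤ 1 / 3 := le_of_sq_le_sq' hω0 (by norm_num) (by rw [hω2]; norm_num)
  obtain ⟨u, hu⟩ : ∃ u, u = Real.sqrt (1 / 3 + ω) := ⟨_, rfl⟩
  obtain ⟨v, hv⟩ : ∃ v, v = Real.sqrt (1 / 3 - ω) := ⟨_, rfl⟩
  have hu0 : 0 ≤ u := by rw [hu]; exact Real.sqrt_nonneg _
  have hv0 : 0 ≤ v := by rw [hv]; exact Real.sqrt_nonneg _
  have hu2 : u ^ 2 = 1 / 3 + ω := by rw [hu]; exact Real.sq_sqrt (by linarith)
  have hv2 : v ^ 2 = 1 / 3 - ω := by rw [hv]; exact Real.sq_sqrt (by linarith)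
  have hu1 : u ≤ 1 := by rw [hu]; exact Real.sqrt_le_one.mpr (by linarith)
  have hv1 : v ≤ 1 := by rw [hv]; exact Real.sqrt_le_one.mpr (by linarith)
  have hsm := hmem u v ⟨by linarith, hu1⟩ ⟨by linarith, hv1⟩
  have k2 : ps ![-u, -v, u, v] 2 = 2 * (u ^ 2) ^ 1 + 2 * (v ^ 2) ^ 1 := hev u v 1
  have k4 : ps ![-u, -v, u, v] 4 = 2 * (u ^ 2) ^ 2 + 2 * (v ^ 2) ^ 2 := hev u v 2
  have k6 : ps ![-u, -v, u, v] 6 = 2 * (u ^ 2) ^ 3 + 2 * (v ^ 2) ^ 3 := hev u v 3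
  have k8 : ps ![-u, -v, u, v] 8 = 2 * (u ^ 2) ^ 4 + 2 * (v ^ 2) ^ 4 := hev u v 4
  rw [hu2, hv2] at k2 k4 k6 k8
  have v2 : 2 * (1 / 3 + ω) ^ 1 + 2 * (1 / 3 - ω) ^ 1 = 4 / 3 := by ring
  have v4 : 2 * (1 / 3 + ω) ^ 2 + 2 * (1 / 3 - ω) ^ 2 = 4 / 5 := by
    have : 2 * (1 / 3 + ω) ^ 2 + 2 * (1 / 3 - ω) ^ 2 = 4 / 9 + 4 * ω ^ 2 := by ring
    rw [this, hω2]; norm_num
  have v6 : 2 * (1 / 3 + ω) ^ 3 + 2 * (1 / 3 - ω) ^ 3 = 68 / 135 := by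
    have : 2 * (1 / 3 + ω) ^ 3 + 2 * (1 / 3 - ω) ^ 3 = 4 / 27 + 4 * ω ^ 2 := by ring
    rw [this, hω2]; norm_num
  have v8 : 2 * (1 / 3 + ω) ^ 4 + 2 * (1 / 3 - ω) ^ 4 = 644 / 2025 := by
    have : 2 * (1 / 3 + ω) ^ 4 + 2 * (1 / 3 - ω) ^ 4 = 4 / 81 + 24 / 9 * ω ^ 2 + 4 * (ω ^ 2) ^ 2 := by
      ring
    rw [this, hω2]; norm_num
  rw [v2] at k2
  rw [v4] at k4
  rw [v6] at k6
  have v8' := v8
  rw [v8] at k8
  have hglob := global_ineq (n := 4) (by norm_num) x _ hx hsm (64 / 945) (256 / 2025) (4 / 11) (hodd u v)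
    (by rw [k6]; norm_num [abs_le])
    (by rw [k8]; norm_num [abs_le])
    (by
      intro j
      rw [hev u v (j + 5), hu2, hv2]
      have hA0 : 0 ≤ 1 / 3 + ω := by linarith
      have hA1 : 1 / 3 + ω ≤ 1 := by linarith
      have hB0 : 0 ≤ 1 / 3 - ω := by linarith
      have hB1 : 1 / 3 - ω ≤ 1 := by linarith
      have h1 : (1 / 3 + ω) ^ (j + 5) ≤ (1 / 3 + ω) ^ 4 := pow_le_pow_of_le_one hA0 hA1 (by omega)
      have h2 : (1 / 3 - ω) ^ (j + 5) ≤ (1 / 3 - ω) ^ 4 := pow_le_pow_of_le_one hB0 hB1 (by omega)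
      have h1' : 0 ≤ (1 / 3 + ω) ^ (j + 5) := by positivity
      have h2' : 0 ≤ (1 / 3 - ω) ^ (j + 5) := by positivity
      have h3 : (0:ℝ) < (4:ℕ) / (2 * ((j:ℝ) + 5) + 1) := by positivity
      have h4 : ((4:ℕ):ℝ) / (2 * ((j:ℝ) + 5) + 1) ≤ 4 / 11 := by
        rw [div_le_iff₀ (by positivity)]
        have hj : (0:ℝ) ≤ j := by positivity
        push_cast
        linarith
      rw [abs_le]
      constructor
      · linarith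
      · linarith)
  have hx2 := hmin _ hsm
  rw [k2, k4] at hglob
  push_cast at hglob
  obtain ⟨p1, hp1⟩ : ∃ p, p = ps x 1 := ⟨_, rfl⟩
  obtain ⟨p2, hp2⟩ : ∃ p, p = ps x 2 := ⟨_, rfl⟩
  obtain ⟨p3, hp3⟩ : ∃ p, p = ps x 3 := ⟨_, rfl⟩
  obtain ⟨p4, hp4⟩ : ∃ p, p = ps x 4 := ⟨_, rfl⟩
  rw [← hp1, ← hp2, ← hp3, ← hp4] at hglob
  have hB : p1 ^ 2 / 9 + p3 ^ 2 / 81 + (p2 - 4 / 3) ^ 2 / 27 + (p4 - 4 / 5) ^ 2 / 243 ≤ 0.00000375 := by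
    norm_num at hglob ⊢
    linarith
  obtain ⟨q1, q2, q3, q4⟩ := bd4 p1 p2 p3 p4 hB
  have ep1 : p1 = d + c + b + a := by rw [hp1, hxe, ps4]; ring
  have ep2 : p2 = d ^ 2 + c ^ 2 + b ^ 2 + a ^ 2 := by rw [hp2, hxe, ps4]
  have ep3 : p3 = d ^ 3 + c ^ 3 + b ^ 3 + a ^ 3 := by rw [hp3, hxe, ps4]
  have ep4 : p4 = d ^ 4 + c ^ 4 + b ^ 4 + a ^ 4 := by rw [hp4, hxe, ps4]
  have hloc := loc4 a b c d ha1 hb1 hc1 hd1 hdc hcb hba (by rw [← ep1]; exact q1)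
    (by rw [← ep2]; exact q2) (by rw [← ep3]; exact q3) (by rw [← ep4]; exact q4)
  obtain ⟨⟨a1, a2⟩, ⟨d1, d2⟩, ⟨b1, b2⟩, ⟨c1, c2⟩⟩ := hloc
  clear hglob hB v2 v4 v6 v8 v8' k2 k4 k6 k8 hsm hu hv hu2 hv2 hω hω2 hω1 hω0 hu0 hv0 hu1 hv1 hx2
  -- local part
  obtain ⟨σ, hσ⟩ : ∃ σ, σ = (a - d) / 2 := ⟨_, rfl⟩
  obtain ⟨t, ht⟩ : ∃ t, t = (a + d) / 2 := ⟨_, rfl⟩
  obtain ⟨τ, hτ⟩ : ∃ τ, τ = (b - c) / 2 := ⟨_, rfl⟩
  obtain ⟨r, hr⟩ : ∃ r, r = (b + c) / 2 := ⟨_, rfl⟩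
  have ea : a = σ + t := by rw [hσ, ht]; ring
  have ed : d = t - σ := by rw [hσ, ht]; ring
  have eb : b = τ + r := by rw [hτ, hr]; ring
  have ec : c = r - τ := by rw [hτ, hr]; ring
  have hσ1 : 0.7565 ≤ σ ∧ σ ≤ 0.8252 := ⟨by linarith, by linarith⟩
  have hτ1 : 0 ≤ τ ∧ τ ≤ 0.3073 := ⟨by linarith, by linarith⟩
  have ht1 : -0.0344 ≤ t ∧ t ≤ 0.0344 := ⟨by linarith, by linarith⟩
  have hr1 : -0.03735 ≤ r ∧ r ≤ 0.03735 := ⟨by linarith [q1.1, q1.2], by linarith [q1.1, q1.2]⟩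
  have ht2 : t ^ 2 ≤ 0.0012 := by
    have := (mulbd ht1 ht1).2
    rw [sq]; norm_num at this ⊢; linarith
  have hr2 : r ^ 2 ≤ 0.0014 := by
    have := (mulbd hr1 hr1).2
    rw [sq]; norm_num at this ⊢; linarith
  have hS1 : 0.5722 ≤ σ ^ 2 := by
    have := mul_self_le_mul_self (by norm_num) hσ1.1
    rw [sq]; norm_num at this ⊢; linarith
  have hS1' : σ ^ 2 ≤ 0.681 := by
    have := mul_self_le_mul_self (by linarith [hσ1.1]) hσ1.2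
    rw [sq]; norm_num at this ⊢; linarith
  have hS2' : τ ^ 2 ≤ 0.0945 := by
    have := mul_self_le_mul_self hτ1.1 hτ1.2
    rw [sq]; norm_num at this ⊢; linarith
  have hsym := hmem σ τ ⟨by linarith [hσ1.1], by linarith [hσ1.2]⟩ ⟨by linarith [hτ1.1], by linarith [hτ1.2]⟩
  have hpair := fun j => pair_bound a (-d) (abs_le.mpr ha1) (abs_le.mpr ⟨by linarith, by linarith⟩) j
  have hpair2 := fun j => pair_bound b (-c) (abs_le.mpr hb1) (abs_le.mpr ⟨by linarith, by linarith⟩) j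
  have hσ' : (a + -d) / 2 = σ := by rw [hσ]; ring
  have ht' : (a - -d) / 2 = t := by rw [ht]; ring
  have hτ' : (b + -c) / 2 = τ := by rw [hτ]; ring
  have hr' : (b - -c) / 2 = r := by rw [hr]; ring
  rw [hσ', ht'] at hpair
  rw [hτ', hr'] at hpair2
  have hl := local_ineq (n := 4) (by norm_num) x ![-σ, -τ, σ, τ] hx hsym (t ^ 2 + r ^ 2)
    (by positivity) (hodd σ τ) ?_ ?_
  · have hfin := final4 (σ ^ 2) (τ ^ 2) t r hS1 hS1' (sq_nonneg τ) hS2' ht2 hr2 p2 p4 q2.1 q4.1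
    have es2 : ps ![-σ, -τ, σ, τ] 2 = 2 * σ ^ 2 + 2 * τ ^ 2 := by
      have := hev σ τ 1; simpa using this
    have es4 : ps ![-σ, -τ, σ, τ] 4 = 2 * (σ ^ 2) ^ 2 + 2 * (τ ^ 2) ^ 2 := hev σ τ 2
    rw [es2, es4, ← hp1, ← hp2, ← hp3, ← hp4] at hl
    have e1 : p1 = 2 * t + 2 * r := by rw [ep1, ea, ed, eb, ec]; ring
    have e2' : 2 * σ ^ 2 + 2 * τ ^ 2 = p2 - (2 * t ^ 2 + 2 * r ^ 2) := by
      rw [ep2, ea, ed, eb, ec]; ring
    have e3' : p3 = 6 * σ ^ 2 * t + 2 * t ^ 3 + 6 * τ ^ 2 * r + 2 * r ^ 3 := by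
      rw [ep3, ea, ed, eb, ec]; ring
    have e4' : 2 * (σ ^ 2) ^ 2 + 2 * (τ ^ 2) ^ 2 =
        p4 - (12 * σ ^ 2 * t ^ 2 + 2 * t ^ 4 + 12 * τ ^ 2 * r ^ 2 + 2 * r ^ 4) := by
      rw [ep4, ea, ed, eb, ec]; ring
    refine ⟨_, hsym, ⟨fun j => if j = 0 then -σ else -τ, fun j => ?_, fun i => ?_⟩, ?_⟩
    · by_cases hj : j = 0
      · simp only [hj, if_true]; exact ⟨by linarith [hσ1.2], by linarith [hσ1.1]⟩
      · simp only [hj, if_false]; exact ⟨by linarith [hτ1.2], by linarith [hτ1.1]⟩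
    · fin_cases i <;> simp
    · intro y hy
      refine le_trans ?_ (hmin y hy)
      have hge : 0 ≤ ((4:ℕ):ℝ) * F 4 x - ((4:ℕ):ℝ) * F 4 ![-σ, -τ, σ, τ] := by
        refine le_trans hfin (le_trans (le_of_eq ?_) hl)
        rw [e2', e4', e1, e3']
        push_cast
        ring
      push_cast at hge
      linarith
  · intro j
    rw [hev σ τ j, hxe, ps4, ← pow_mul, ← pow_mul]
    have h1 := (hpair j).1
    have h2 := (hpair2 j).1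
    rw [Even.neg_pow (by simp)] at h1 h2
    linarith
  · intro j
    rw [hev σ τ (j + 3), hxe, ps4, ← pow_mul, ← pow_mul]
    have h1 := (hpair (j + 2)).2
    have h2 := (hpair2 (j + 2)).2
    rw [show j + 2 + 1 = j + 3 by ring, Even.neg_pow (by simp)] at h1 h2
    push_cast at h1 h2
    have e : (2 * ((j:ℝ) + 2 + 1)) = 2 * ((j:ℝ) + 3) := by ring
    rw [e] at h1 h2
    linarith

/-- For `1 ≤ n ≤ 4` some symmetric point of `[-1,1]^n` is a global minimiser of `F_n`. -/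
theorem result (n : ℕ) (hn1 : 1 ≤ n) (hn4 : n ≤ 4) :
    ∃ s ∈ cube n, IsSymmetric n s ∧ ∀ y ∈ cube n, F n s ≤ F n y := by
  interval_cases n
  · exact case_one
  · exact case_two
  · exact case_three
  · exact case_four

end

end Pool.Agent.Results.MP_76a7f5_an.SmallN
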