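import Mathlib

/-!
# MP_76a7f5_an: the case `n = 2`

For `n = 2` the global minimisers of the quadrature-node energy `F_2` on the closed square
`[-1,1]^2` are exactly the two symmetric points `(a,-a)` and `(-a,a)` for one number `a`
with `0.5832 < a < 0.5833`.
-/

namespace Pool.Agent.Results.MP_76a7f5_an.TwoNodes

open scoped BigOperators

/-- `g(x) = x⁻¹ ln ((3+x)/(3-x))`, with `g(0) = 2/3`. -/
noncomputable def g (x : ℝ) : ℝ :=
  if x = 0 then 2 / 3 else Real.log ((3 + x) / (3 - x)) / x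

/-- The energy `F_n`. -/
noncomputable def F (n : ℕ) (x : Fin n → ℝ) : ℝ :=
  (1 / (n : ℝ)) * ∑ i, ∑ j, 1 / (3 - x i * x j) - ∑ i, g (x i)

/-- The cube `[-1,1]^n`. -/
def Cube (n : ℕ) : Set (Fin n → ℝ) := {x | ∀ i, x i ∈ Set.Icc (-1 : ℝ) 1}

/-- `x` is a global minimiser of `F_n` on the cube. -/
def IsGlobalMin (n : ℕ) (x : Fin n → ℝ) : Prop :=
  x ∈ Cube n ∧ ∀ y ∈ Cube n, F n x ≤ F n y

/-! ### The function `g` as an integral -/

/-- The integrand. -/
noncomputable def ker (u t : ℝ) : ℝ := 6 / (9 - u * t ^ 2)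

/-- The integral `G(u) = ∫_0^1 6/(9 - u t^2) dt`, so that `g(x) = G(x^2)`. -/
noncomputable def G (u : ℝ) : ℝ := ∫ t in (0:ℝ)..1, ker u t

lemma den_pos {u t : ℝ} (hu : u ∈ Set.Icc (0:ℝ) 1) (ht : t ∈ Set.Icc (0:ℝ) 1) :
    8 ≤ 9 - u * t ^ 2 := by
  have h1 : t ^ 2 ≤ 1 := by nlinarith [ht.1, ht.2]
  have h2 : u * t ^ 2 ≤ 1 := by nlinarith [hu.1, hu.2, sq_nonneg t]
  linarith

lemma ker_contOn {u : ℝ} (hu : u ∈ Set.Icc (0:ℝ) 1) :
    ContinuousOn (ker u) (Set.uIcc (0:ℝ) 1) := by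
  rw [Set.uIcc_of_le zero_le_one]
  unfold ker
  refine ContinuousOn.div continuousOn_const (by fun_prop) ?_
  intro t ht
  have := den_pos hu ht
  have h8 : (0:ℝ) < 9 - u * t ^ 2 := by linarith
  exact ne_of_gt h8

lemma ker_int {u : ℝ} (hu : u ∈ Set.Icc (0:ℝ) 1) :
    IntervalIntegrable (ker u) MeasureTheory.volume 0 1 :=
  (ker_contOn hu).intervalIntegrable

lemma g_eq {x : ℝ} (hx : x ∈ Set.Icc (-1:ℝ) 1) : g x = G (x ^ 2) := by
  have hx2 : x ^ 2 ∈ Set.Icc (0:ℝ) 1 := ⟨sq_nonneg x, by nlinarith [hx.1, hx.2]⟩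
  by_cases h0 : x = 0
  · subst h0
    simp only [g, G, ker, if_true]
    norm_num
  · have hder : ∀ t ∈ Set.uIcc (0:ℝ) 1,
        HasDerivAt (fun t : ℝ => (Real.log (3 + x * t) - Real.log (3 - x * t)) / x)
          (ker (x ^ 2) t) t := by
      intro t ht
      rw [Set.uIcc_of_le zero_le_one] at ht
      have hxt : |x * t| ≤ 1 := by
        rw [abs_mul]
        have h1 : |x| ≤ 1 := abs_le.mpr hx
        have h2 : |t| ≤ 1 := abs_le.mpr ⟨by linarith [ht.1], ht.2⟩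
        calc |x| * |t| ≤ 1 * 1 := mul_le_mul h1 h2 (abs_nonneg _) zero_le_one
          _ = 1 := one_mul 1
      have hb := abs_le.mp hxt
      have hp : (3 + x * t) ≠ 0 := by intro h; linarith [hb.1]
      have hm : (3 - x * t) ≠ 0 := by intro h; linarith [hb.2]
      have d1 : HasDerivAt (fun t : ℝ => 3 + x * t) x t := by
        simpa using ((hasDerivAt_id t).const_mul x).const_add 3
      have d2 : HasDerivAt (fun t : ℝ => 3 - x * t) (-x) t := by
        simpa using ((hasDerivAt_id t).const_mul x).const_sub 3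
      have d3 := ((d1.log hp).sub (d2.log hm)).div_const x
      have e : ker (x ^ 2) t = (x / (3 + x * t) - -x / (3 - x * t)) / x := by
        have hden : 9 - x ^ 2 * t ^ 2 = (3 + x * t) * (3 - x * t) := by ring
        unfold ker
        rw [hden, neg_div, sub_neg_eq_add, div_add_div _ _ hp hm, div_div,
          div_eq_div_iff (mul_ne_zero hp hm) (mul_ne_zero (mul_ne_zero hp hm) h0)]
        ring
      rw [e]
      exact d3
    have hI := intervalIntegral.integral_eq_sub_of_hasDerivAt hder (ker_int hx2)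
    unfold G
    rw [hI]
    unfold g
    rw [if_neg h0, Real.log_div]
    · simp
    · intro h; linarith [hx.1]
    · intro h; linarith [hx.2]

lemma G_lip {u v : ℝ} (hu : u ∈ Set.Icc (0:ℝ) 1) (hv : v ∈ Set.Icc (0:ℝ) 1) :
    |G u - G v| ≤ |u - v| := by
  unfold G
  rw [← intervalIntegral.integral_sub (ker_int hu) (ker_int hv)]
  have := intervalIntegral.norm_integral_le_of_norm_le_const (a := (0:ℝ)) (b := 1)
    (f := fun t => ker u t - ker v t) (C := |u - v|) ?_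
  · simpa using this
  · intro t ht
    rw [Set.uIoc_of_le zero_le_one] at ht
    have ht' : t ∈ Set.Icc (0:ℝ) 1 := ⟨ht.1.le, ht.2⟩
    have h1 := den_pos hu ht'
    have h2 := den_pos hv ht'
    have e : ker u t - ker v t
        = (u - v) * (6 * t ^ 2 / ((9 - u * t ^ 2) * (9 - v * t ^ 2))) := by
      unfold ker
      have h1' : (9 - u * t ^ 2) ≠ 0 := by intro h; linarith
      have h2' : (9 - v * t ^ 2) ≠ 0 := by intro h; linarith
      rw [div_sub_div _ _ h1' h2', mul_div_assoc', div_eq_div_iff (mul_ne_zero h1' h2')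
        (mul_ne_zero h1' h2')]
      ring
    rw [e, Real.norm_eq_abs, abs_mul]
    have hq : |6 * t ^ 2 / ((9 - u * t ^ 2) * (9 - v * t ^ 2))| ≤ 1 := by
      rw [abs_of_nonneg (div_nonneg (by positivity) (by nlinarith))]
      rw [div_le_one (by nlinarith)]
      nlinarith [ht.1, ht.2]
    calc |u - v| * _ ≤ |u - v| * 1 := by gcongr
      _ = |u - v| := mul_one _

/-- The energy of the symmetric configuration `(a,-a)` as a function of `u = a^2`. -/
noncomputable def phi (u : ℝ) : ℝ := 6 / (9 - u ^ 2) - 2 * G u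

/-- Convexity defect of `G`. -/
lemma G_defect {u v a b : ℝ} (hu : u ∈ Set.Icc (0:ℝ) 1) (hv : v ∈ Set.Icc (0:ℝ) 1)
    (ha : 0 < a) (hb : 0 < b) (hab : a + b = 1) :
    a * G u + b * G v - G (a * u + b * v) ≤ (1 / 80) * (a * b * (u - v) ^ 2) := by
  have hm : a * u + b * v ∈ Set.Icc (0:ℝ) 1 := by
    constructor
    · have := mul_nonneg ha.le hu.1
      have := mul_nonneg hb.le hv.1
      linarith
    · nlinarith [hu.2, hv.2]
  have iu := (ker_int hu).const_mul a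
  have iv := (ker_int hv).const_mul b
  have im := ker_int hm
  have e : a * G u + b * G v - G (a * u + b * v)
      = ∫ t in (0:ℝ)..1, (a * ker u t + b * ker v t - ker (a * u + b * v) t) := by
    rw [intervalIntegral.integral_sub (iu.add iv) im, intervalIntegral.integral_add iu iv,
      intervalIntegral.integral_const_mul, intervalIntegral.integral_const_mul]
    rfl
  rw [e]
  have hle : ∀ t ∈ Set.Icc (0:ℝ) 1, a * ker u t + b * ker v t - ker (a * u + b * v) t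
      ≤ (1 / 80) * (a * b * (u - v) ^ 2) := by
    intro t ht
    have h1 := den_pos hu ht
    have h2 := den_pos hv ht
    have h3 := den_pos hm ht
    have h1' : (9 - u * t ^ 2) ≠ 0 := by intro h; linarith
    have h2' : (9 - v * t ^ 2) ≠ 0 := by intro h; linarith
    have h3' : (9 - (a * u + b * v) * t ^ 2) ≠ 0 := by intro h; linarith
    have hb' : b = 1 - a := by linarith
    have key : a * ker u t + b * ker v t - ker (a * u + b * v) t
        = (a * b * (u - v) ^ 2) *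
          (6 * t ^ 4 / ((9 - u * t ^ 2) * (9 - v * t ^ 2) * (9 - (a * u + b * v) * t ^ 2))) := by
      unfold ker
      rw [mul_div_assoc', mul_div_assoc', div_add_div _ _ h1' h2', div_sub_div _ _
        (mul_ne_zero h1' h2') h3', mul_div_assoc', div_eq_div_iff
        (mul_ne_zero (mul_ne_zero h1' h2') h3') (mul_ne_zero (mul_ne_zero h1' h2') h3')]
      subst hb'
      ring
    rw [key, mul_comm (1 / 80 : ℝ)]
    apply mul_le_mul_of_nonneg_left _ (by positivity)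
    rw [div_le_div_iff₀ (by positivity) (by norm_num)]
    have ht4 : t ^ 4 ≤ 1 := pow_le_one₀ ht.1 ht.2
    have hprod : 512 ≤ (9 - u * t ^ 2) * (9 - v * t ^ 2) * (9 - (a * u + b * v) * t ^ 2) := by
      have h12 : 64 ≤ (9 - u * t ^ 2) * (9 - v * t ^ 2) := by nlinarith
      nlinarith
    linarith
  calc ∫ t in (0:ℝ)..1, (a * ker u t + b * ker v t - ker (a * u + b * v) t)
      ≤ ∫ t in (0:ℝ)..1, (1 / 80) * (a * b * (u - v) ^ 2) := by
        apply intervalIntegral.integral_mono_on zero_le_one ((iu.add iv).sub im)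
          intervalIntegrable_const
        exact hle
    _ = (1 / 80) * (a * b * (u - v) ^ 2) := by simp

/-- Convexity gain of `6/(9-u^2)`. -/
lemma h_gain {u v a b : ℝ} (hu : u ∈ Set.Icc (0:ℝ) 1) (hv : v ∈ Set.Icc (0:ℝ) 1)
    (ha : 0 < a) (hb : 0 < b) (hab : a + b = 1) :
    (6 / 81) * (a * b * (u - v) ^ 2)
      ≤ a * (6 / (9 - u ^ 2)) + b * (6 / (9 - v ^ 2)) - 6 / (9 - (a * u + b * v) ^ 2) := by
  have hm : a * u + b * v ∈ Set.Icc (0:ℝ) 1 := by
    constructor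
    · have := mul_nonneg ha.le hu.1
      have := mul_nonneg hb.le hv.1
      linarith
    · nlinarith [hu.2, hv.2]
  have hA : 8 ≤ 9 - u ^ 2 ∧ 9 - u ^ 2 ≤ 9 := ⟨by nlinarith [hu.1, hu.2], by nlinarith [hu.1]⟩
  have hB : 8 ≤ 9 - v ^ 2 ∧ 9 - v ^ 2 ≤ 9 := ⟨by nlinarith [hv.1, hv.2], by nlinarith [hv.1]⟩
  have hM : 8 ≤ 9 - (a * u + b * v) ^ 2 ∧ 9 - (a * u + b * v) ^ 2 ≤ 9 :=
    ⟨by nlinarith [hm.1, hm.2], by nlinarith [hm.1]⟩
  have hL : 8 ≤ a * (9 - u ^ 2) + b * (9 - v ^ 2) ∧ a * (9 - u ^ 2) + b * (9 - v ^ 2) ≤ 9 := by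
    constructor <;> nlinarith [hA.1, hA.2, hB.1, hB.2]
  -- weighted harmonic versus arithmetic mean
  have s1 : 6 / (a * (9 - u ^ 2) + b * (9 - v ^ 2))
      ≤ a * (6 / (9 - u ^ 2)) + b * (6 / (9 - v ^ 2)) := by
    have hA0 : (0:ℝ) < 9 - u ^ 2 := by linarith [hA.1]
    have hB0 : (0:ℝ) < 9 - v ^ 2 := by linarith [hB.1]
    have hL0 : (0:ℝ) < a * (9 - u ^ 2) + b * (9 - v ^ 2) := by linarith [hL.1]
    rw [mul_div_assoc', mul_div_assoc', div_add_div _ _ hA0.ne' hB0.ne',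
      div_le_div_iff₀ hL0 (mul_pos hA0 hB0)]
    have hb' : b = 1 - a := by linarith
    have : (a * 6 * (9 - v ^ 2) + (9 - u ^ 2) * (b * 6)) * (a * (9 - u ^ 2) + b * (9 - v ^ 2))
        - 6 * ((9 - u ^ 2) * (9 - v ^ 2)) = 6 * (a * b) * (u ^ 2 - v ^ 2) ^ 2 := by
      subst hb'; ring
    nlinarith [mul_nonneg (mul_nonneg (by norm_num : (0:ℝ) ≤ 6) (mul_pos ha hb).le)
      (sq_nonneg (u ^ 2 - v ^ 2))]
  have s2 : (6 / 81) * (a * b * (u - v) ^ 2)
      ≤ 6 / (a * (9 - u ^ 2) + b * (9 - v ^ 2)) - 6 / (9 - (a * u + b * v) ^ 2) := by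
    have hL0 : (0:ℝ) < a * (9 - u ^ 2) + b * (9 - v ^ 2) := by linarith [hL.1]
    have hM0 : (0:ℝ) < 9 - (a * u + b * v) ^ 2 := by linarith [hM.1]
    rw [div_sub_div _ _ hL0.ne' hM0.ne', le_div_iff₀ (mul_pos hL0 hM0)]
    have e : 6 * (9 - (a * u + b * v) ^ 2) - (a * (9 - u ^ 2) + b * (9 - v ^ 2)) * 6
        = 6 * (a * b * (u - v) ^ 2) := by
      have hb' : b = 1 - a := by linarith
      subst hb'; ring
    rw [e]
    have hprod : (a * (9 - u ^ 2) + b * (9 - v ^ 2)) * (9 - (a * u + b * v) ^ 2) ≤ 81 := by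
      nlinarith [hL.1, hL.2, hM.1, hM.2]
    have hw : 0 ≤ a * b * (u - v) ^ 2 := by positivity
    nlinarith [mul_le_mul_of_nonneg_left hprod hw]
  linarith

lemma phi_strict : StrictConvexOn ℝ (Set.Icc (0:ℝ) 1) phi := by
  refine ⟨convex_Icc 0 1, ?_⟩
  intro u hu v hv huv a b ha hb hab
  have h1 := h_gain hu hv ha hb hab
  have h2 := G_defect hu hv ha hb hab
  have hpos : 0 < a * b * (u - v) ^ 2 := by
    have : 0 < (u - v) ^ 2 := by
      have : u - v ≠ 0 := sub_ne_zero.mpr huv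
      positivity
    positivity
  simp only [smul_eq_mul]
  unfold phi
  nlinarith

lemma phi_cont : ContinuousOn phi (Set.Icc (0:ℝ) 1) := by
  unfold phi
  have hG : ContinuousOn G (Set.Icc (0:ℝ) 1) := by
    have : LipschitzOnWith 1 G (Set.Icc (0:ℝ) 1) := by
      apply LipschitzOnWith.of_dist_le_mul
      intro u hu v hv
      rw [Real.dist_eq, Real.dist_eq]
      simpa using G_lip hu hv
    exact this.continuousOn
  apply ContinuousOn.sub
  · refine ContinuousOn.div continuousOn_const (by fun_prop) ?_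
    intro u hu h
    nlinarith [hu.1, hu.2]
  · exact continuousOn_const.mul hG

/-! ### The energy of two nodes -/

lemma F_two (x y : ℝ) : F 2 ![x, y]
    = (1 / 2) * (1 / (3 - x * x) + 2 * (1 / (3 - x * y)) + 1 / (3 - y * y)) - (g x + g y) := by
  unfold F
  simp only [Fin.sum_univ_two, Matrix.cons_val_zero, Matrix.cons_val_one]
  rw [mul_comm y x]
  push_cast
  ring

lemma F_sym {a : ℝ} (ha : a ∈ Set.Icc (-1:ℝ) 1) : F 2 ![a, -a] = phi (a ^ 2) := by
  have ha' : -a ∈ Set.Icc (-1:ℝ) 1 := ⟨by linarith [ha.2], by linarith [ha.1]⟩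
  have ha2 : a ^ 2 ≤ 1 := by nlinarith [ha.1, ha.2]
  rw [F_two, g_eq ha, g_eq ha', neg_sq]
  unfold phi
  have h1 : (3 - a * a) ≠ 0 := by intro h; nlinarith
  have h2 : (3 - a * -a) ≠ 0 := by intro h; nlinarith [sq_nonneg a]
  have h3 : (3 - -a * -a) ≠ 0 := by intro h; nlinarith
  have h4 : (9 - (a ^ 2) ^ 2) ≠ 0 := by intro h; nlinarith [sq_nonneg a]
  have e : (1 / 2) * (1 / (3 - a * a) + 2 * (1 / (3 - a * -a)) + 1 / (3 - -a * -a))
      = 6 / (9 - (a ^ 2) ^ 2) := by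
    have e1 : (3 - -a * -a) = 3 - a * a := by ring
    have e2 : (3 - a * -a) = 3 + a * a := by ring
    have e3 : 9 - (a ^ 2) ^ 2 = (3 - a * a) * (3 + a * a) := by ring
    have h2' : (3 + a * a) ≠ 0 := by rw [← e2]; exact h2
    rw [e1, e2, e3]
    have h5 : 1 / (3 - a * a) * (3 - a * a) = 1 := one_div_mul_cancel h1
    have h6 : 1 / (3 + a * a) * (3 + a * a) = 1 := one_div_mul_cancel h2'
    rw [eq_div_iff (mul_ne_zero h1 h2')]
    linear_combination (3 + a * a) * h5 + (3 - a * a) * h6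
  rw [e]
  ring

/-- The key inequality. -/
lemma F_ge {x y : ℝ} (hx : x ∈ Set.Icc (-1:ℝ) 1) (hy : y ∈ Set.Icc (-1:ℝ) 1) :
    (phi (x ^ 2) + phi (y ^ 2)) / 2 + (1 / 64) * (x + y) ^ 2 ≤ F 2 ![x, y] := by
  have hx2 : x ^ 2 ≤ 1 := by nlinarith [hx.1, hx.2]
  have hy2 : y ^ 2 ≤ 1 := by nlinarith [hy.1, hy.2]
  have hxy : x * y ≤ 1 := by nlinarith [sq_nonneg (x - y)]
  have hxy' : -1 ≤ x * y := by nlinarith [sq_nonneg (x + y)]
  rw [← F_sym hx, ← F_sym hy, F_two, F_two, F_two]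
  have hgx : g (-x) = g x := by
    rw [g_eq hx, g_eq ⟨by linarith [hx.2], by linarith [hx.1]⟩, neg_sq]
  have hgy : g (-y) = g y := by
    rw [g_eq hy, g_eq ⟨by linarith [hy.2], by linarith [hy.1]⟩, neg_sq]
  rw [hgx, hgy]
  have e1 : (3 - -x * -x) = 3 - x * x := by ring
  have e2 : (3 - x * -x) = 3 + x ^ 2 := by ring
  have e3 : (3 - -y * -y) = 3 - y * y := by ring
  have e4 : (3 - y * -y) = 3 + y ^ 2 := by ring
  rw [e1, e2, e3, e4]
  have key : (1 / 2) * (1 / (3 + x ^ 2)) + (1 / 2) * (1 / (3 + y ^ 2)) + (1 / 64) * (x + y) ^ 2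
      ≤ 1 / (3 - x * y) := by
    have hA : (0:ℝ) < 3 + x ^ 2 := by positivity
    have hB : (0:ℝ) < 3 + y ^ 2 := by positivity
    have hC : (0:ℝ) < 3 - x * y := by linarith
    have e : 1 / (3 - x * y) - (1 / 2) * (1 / (3 + x ^ 2)) - (1 / 2) * (1 / (3 + y ^ 2))
        = (x + y) ^ 2 * ((3 + x * y) / (2 * (3 + x ^ 2) * (3 + y ^ 2) * (3 - x * y))) := by
      field_simp
      ring
    have h2 : (1:ℝ) / 64 ≤ (3 + x * y) / (2 * (3 + x ^ 2) * (3 + y ^ 2) * (3 - x * y)) := by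
      rw [div_le_div_iff₀ (by norm_num) (by positivity)]
      have hAB : (3 + x ^ 2) * (3 + y ^ 2) ≤ 16 := by nlinarith [sq_nonneg x, sq_nonneg y]
      have hAB0 : 0 < (3 + x ^ 2) * (3 + y ^ 2) := mul_pos hA hB
      nlinarith [mul_le_mul_of_nonneg_right hAB hC.le]
    nlinarith [mul_le_mul_of_nonneg_left h2 (sq_nonneg (x + y))]
  linarith


/-! ### The minimiser of `phi` -/

lemma phi_eq {a : ℝ} (h0 : 0 < a) (h1 : a ≤ 1) : phi (a ^ 2)
    = 6 / (9 - a ^ 4) - 2 * ((Real.log (1 + a / 3) - Real.log (1 - a / 3)) / a) := by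
  have ha : a ∈ Set.Icc (-1:ℝ) 1 := ⟨by linarith, h1⟩
  unfold phi
  rw [← g_eq ha]
  unfold g
  rw [if_neg h0.ne']
  have e : (3 + a) / (3 - a) = (1 + a / 3) / (1 - a / 3) := by
    have h3 : (3 - a) ≠ 0 := by intro h; linarith
    have h4 : (1 - a / 3) ≠ 0 := by intro h; linarith
    rw [div_eq_div_iff h3 h4]
    ring
  rw [e, Real.log_div (by positivity) (by intro h; linarith)]
  ring_nf

lemma log_bd {x : ℝ} (h0 : 0 ≤ x) (h1 : x ≤ 1 / 2) :
    |Real.log (1 + x) - Real.log (1 - x)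
      - 2 * (x + x ^ 3 / 3 + x ^ 5 / 5 + x ^ 7 / 7 + x ^ 9 / 9 + x ^ 11 / 11 + x ^ 13 / 13
        + x ^ 15 / 15 + x ^ 17 / 17)| ≤ 4 * x ^ 19 := by
  have hx : |x| < 1 := by rw [abs_of_nonneg h0]; linarith
  have hx' : |-x| < 1 := by rw [abs_neg]; exact hx
  have e1 := Real.abs_log_sub_add_sum_range_le hx 18
  have e2 := Real.abs_log_sub_add_sum_range_le hx' 18
  rw [abs_neg] at e2
  rw [abs_of_nonneg h0] at e1 e2
  have hb : x ^ (18 + 1) / (1 - x) ≤ 2 * x ^ 19 := by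
    rw [div_le_iff₀ (by linarith)]
    have : 0 ≤ x ^ 19 := by positivity
    norm_num
    nlinarith
  have f1 := abs_le.mp (e1.trans hb)
  have f2 := abs_le.mp (e2.trans hb)
  simp only [Finset.sum_range_succ, Finset.sum_range_zero] at f1 f2
  rw [sub_neg_eq_add] at f2
  norm_num at f1 f2
  rw [abs_le]
  constructor
  · nlinarith [f1.1, f1.2, f2.1, f2.2]
  · nlinarith [f1.1, f1.2, f2.1, f2.2]

lemma num0 : phi (0.58324 ^ 2) < -0.67517356875 := by
  rw [phi_eq (by norm_num) (by norm_num)]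
  have h := abs_le.mp (log_bd (x := 0.58324 / 3) (by norm_num) (by norm_num))
  have h1 := h.1
  have h2 : (2 * (0.58324 / 3 + (0.58324 / 3) ^ 3 / 3 + (0.58324 / 3) ^ 5 / 5
      + (0.58324 / 3) ^ 7 / 7 + (0.58324 / 3) ^ 9 / 9 + (0.58324 / 3) ^ 11 / 11
      + (0.58324 / 3) ^ 13 / 13 + (0.58324 / 3) ^ 15 / 15 + (0.58324 / 3) ^ 17 / 17)
      - 4 * (0.58324 / 3) ^ 19) / 0.58324
      ≤ (Real.log (1 + 0.58324 / 3) - Real.log (1 - 0.58324 / 3)) / 0.58324 := by
    apply div_le_div_of_nonneg_right _ (by norm_num)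
    linarith
  refine lt_of_le_of_lt (sub_le_sub_left (mul_le_mul_of_nonneg_left h2 (by norm_num)) _) ?_
  norm_num

lemma num1 : -0.67517356875 < phi (0.5832 ^ 2) := by
  rw [phi_eq (by norm_num) (by norm_num)]
  have h := abs_le.mp (log_bd (x := 0.5832 / 3) (by norm_num) (by norm_num))
  have h1 := h.2
  have h2 : (Real.log (1 + 0.5832 / 3) - Real.log (1 - 0.5832 / 3)) / 0.5832
      ≤ (2 * (0.5832 / 3 + (0.5832 / 3) ^ 3 / 3 + (0.5832 / 3) ^ 5 / 5
      + (0.5832 / 3) ^ 7 / 7 + (0.5832 / 3) ^ 9 / 9 + (0.5832 / 3) ^ 11 / 11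
      + (0.5832 / 3) ^ 13 / 13 + (0.5832 / 3) ^ 15 / 15 + (0.5832 / 3) ^ 17 / 17)
      + 4 * (0.5832 / 3) ^ 19) / 0.5832 := by
    apply div_le_div_of_nonneg_right _ (by norm_num)
    linarith
  refine lt_of_lt_of_le ?_ (sub_le_sub_left (mul_le_mul_of_nonneg_left h2 (by norm_num)) _)
  norm_num

lemma num2 : -0.67517356875 < phi (0.5833 ^ 2) := by
  rw [phi_eq (by norm_num) (by norm_num)]
  have h := abs_le.mp (log_bd (x := 0.5833 / 3) (by norm_num) (by norm_num))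
  have h1 := h.2
  have h2 : (Real.log (1 + 0.5833 / 3) - Real.log (1 - 0.5833 / 3)) / 0.5833
      ≤ (2 * (0.5833 / 3 + (0.5833 / 3) ^ 3 / 3 + (0.5833 / 3) ^ 5 / 5
      + (0.5833 / 3) ^ 7 / 7 + (0.5833 / 3) ^ 9 / 9 + (0.5833 / 3) ^ 11 / 11
      + (0.5833 / 3) ^ 13 / 13 + (0.5833 / 3) ^ 15 / 15 + (0.5833 / 3) ^ 17 / 17)
      + 4 * (0.5833 / 3) ^ 19) / 0.5833 := by
    apply div_le_div_of_nonneg_right _ (by norm_num)
    linarith
  refine lt_of_lt_of_le ?_ (sub_le_sub_left (mul_le_mul_of_nonneg_left h2 (by norm_num)) _)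
  norm_num

/-- `phi` has exactly one minimiser on `[0,1]`, and it lies in `(0.5832^2, 0.5833^2)`. -/
lemma exists_min : ∃ u ∈ Set.Icc (0:ℝ) 1, (0.5832 ^ 2 < u ∧ u < 0.5833 ^ 2) ∧
    ∀ v ∈ Set.Icc (0:ℝ) 1, phi u ≤ phi v ∧ (phi v ≤ phi u → v = u) := by
  obtain ⟨u, hu, hmin⟩ := isCompact_Icc.exists_isMinOn (Set.nonempty_Icc.mpr zero_le_one) phi_cont
  have m0 : (0.58324 ^ 2 : ℝ) ∈ Set.Icc (0:ℝ) 1 := by constructor <;> norm_num
  have m1 : (0.5832 ^ 2 : ℝ) ∈ Set.Icc (0:ℝ) 1 := by constructor <;> norm_num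
  have m2 : (0.5833 ^ 2 : ℝ) ∈ Set.Icc (0:ℝ) 1 := by constructor <;> norm_num
  have hle : ∀ v ∈ Set.Icc (0:ℝ) 1, phi u ≤ phi v := fun v hv => hmin hv
  refine ⟨u, hu, ⟨?_, ?_⟩, fun v hv => ⟨hle v hv, fun h => ?_⟩⟩
  · by_contra hcon
    rw [not_lt] at hcon
    have hseg : (0.5832 ^ 2 : ℝ) ∈ segment ℝ u (0.58324 ^ 2) := by
      rw [segment_eq_Icc (by linarith [(by norm_num : (0.5832 ^ 2 : ℝ) ≤ 0.58324 ^ 2)])]
      exact ⟨hcon, by norm_num⟩
    have := phi_strict.convexOn.le_on_segment hu m0 hseg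
    have h3 := max_eq_right (hle _ m0)
    rw [h3] at this
    linarith [num0, num1]
  · by_contra hcon
    rw [not_lt] at hcon
    have hseg : (0.5833 ^ 2 : ℝ) ∈ segment ℝ (0.58324 ^ 2) u := by
      rw [segment_eq_Icc (by linarith [(by norm_num : (0.58324 ^ 2 : ℝ) ≤ 0.5833 ^ 2)])]
      exact ⟨by norm_num, hcon⟩
    have := phi_strict.convexOn.le_on_segment m0 hu hseg
    have h3 := max_eq_left (hle _ m0)
    rw [h3] at this
    linarith [num0, num2]
  · exact phi_strict.eq_of_isMinOn (fun w hw => h.trans (hle w hw)) hmin hv hu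

/-- **Theorem.** For `n = 2` there is a number `a` with `0.5832 < a < 0.5833` such that the
global minimisers of `F_2` on the closed square `[-1,1]^2` are exactly `(a,-a)` and
`(-a,a)`. In particular every global minimiser is symmetric and lies in the open square. -/
theorem result : ∃ a : ℝ, 0.5832 < a ∧ a < 0.5833 ∧
    ∀ x : Fin 2 → ℝ, IsGlobalMin 2 x ↔ (x = ![a, -a] ∨ x = ![-a, a]) := by
  obtain ⟨u, hu, ⟨hu1, hu2⟩, hmin⟩ := exists_min
  have hs0 : 0 < Real.sqrt u := Real.sqrt_pos.mpr (lt_trans (by norm_num) hu1)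
  have hs2 : Real.sqrt u ^ 2 = u := Real.sq_sqrt hu.1
  have b1 : 0.5832 < Real.sqrt u := (Real.lt_sqrt (by norm_num)).mpr hu1
  have b2 : Real.sqrt u < 0.5833 := by
    rw [Real.sqrt_lt' (by norm_num)]
    exact hu2
  refine ⟨Real.sqrt u, b1, b2, ?_⟩
  have ha : Real.sqrt u ∈ Set.Icc (-1:ℝ) 1 := ⟨by linarith, by linarith⟩
  have ha' : -Real.sqrt u ∈ Set.Icc (-1:ℝ) 1 := ⟨by linarith [ha.2], by linarith [ha.1]⟩
  have hsq : ∀ {t : ℝ}, t ∈ Set.Icc (-1:ℝ) 1 → t ^ 2 ∈ Set.Icc (0:ℝ) 1 := by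
    intro t ht
    exact ⟨sq_nonneg t, by nlinarith [ht.1, ht.2]⟩
  have vec : ∀ x : Fin 2 → ℝ, x = ![x 0, x 1] := by
    intro x; ext i; fin_cases i <;> rfl
  have lower : ∀ y ∈ Cube 2, phi u ≤ F 2 y := by
    intro y hy
    have h := F_ge (hy 0) (hy 1)
    rw [← vec y] at h
    have p0 := (hmin _ (hsq (hy 0))).1
    have p1 := (hmin _ (hsq (hy 1))).1
    nlinarith [sq_nonneg (y 0 + y 1)]
  have mem : ∀ t ∈ Set.Icc (-1:ℝ) 1, (![t, -t] : Fin 2 → ℝ) ∈ Cube 2 := by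
    intro t ht i
    fin_cases i
    · exact ht
    · exact ⟨by simpa using by linarith [ht.2], by simpa using by linarith [ht.1]⟩
  intro x
  constructor
  · rintro ⟨hx, hxm⟩
    have h := F_ge (hx 0) (hx 1)
    rw [← vec x] at h
    have p0 := hmin _ (hsq (hx 0))
    have p1 := hmin _ (hsq (hx 1))
    have hF : F 2 x ≤ phi u := by
      have := hxm _ (mem _ ha)
      rwa [F_sym ha, hs2] at this
    have hsum : x 0 + x 1 = 0 := by
      have : (x 0 + x 1) ^ 2 ≤ 0 := by nlinarith [p0.1, p1.1]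
      exact pow_eq_zero_iff (two_ne_zero) |>.mp (le_antisymm this (sq_nonneg _))
    have hx0 : x 0 ^ 2 = u := by
      apply p0.2
      nlinarith [p1.1, sq_nonneg (x 0 + x 1)]
    have hx1 : x 1 = - x 0 := by linarith
    rw [← hs2] at hx0
    rcases sq_eq_sq_iff_eq_or_eq_neg.mp hx0 with h0 | h0
    · left
      rw [vec x, hx1, h0]
    · right
      rw [vec x, hx1, h0, neg_neg]
  · rintro (rfl | rfl)
    · refine ⟨mem _ ha, fun y hy => ?_⟩
      rw [F_sym ha, hs2]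
      exact lower y hy
    · have e : (![-Real.sqrt u, Real.sqrt u] : Fin 2 → ℝ)
          = ![-Real.sqrt u, -(-Real.sqrt u)] := by rw [neg_neg]
      rw [e]
      refine ⟨mem _ ha', fun y hy => ?_⟩
      rw [F_sym ha', neg_sq, hs2]
      exact lower y hy

end Pool.Agent.Results.MP_76a7f5_an.TwoNodes
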